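import Mathlib

/-!
# Topological core for MP_21eb72_gt

A zero-finding lemma for maps of the closed disk into the complex plane which are
equivariant under rotation by a third of a turn on the boundary circle, and its consequence
for functions on the punctured space `ℂ × ℂ`.
-/

set_option autoImplicit false

namespace Pool.Agent.Lib.MP_21eb72_gt

open Complex Metric Set

/-- A nowhere vanishing continuous function on the closed unit disk has a continuous logarithm. -/
theorem exists_log_on_disk (s : ℂ → ℂ) (hs : ContinuousOn s (closedBall 0 1))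
    (h0 : ∀ z ∈ closedBall (0:ℂ) 1, s z ≠ 0) :
    ∃ h : ℂ → ℂ, ContinuousOn h (closedBall 0 1) ∧
      ∀ z ∈ closedBall (0:ℂ) 1, s z = Complex.exp (h z) := by
  have hcomp : IsCompact (closedBall (0:ℂ) 1) := isCompact_closedBall 0 1
  -- lower bound of the norm
  obtain ⟨m, hm0, hm⟩ : ∃ m : ℝ, 0 < m ∧ ∀ z ∈ closedBall (0:ℂ) 1, m ≤ ‖s z‖ := by
    obtain ⟨z0, hz0, hmin⟩ := hcomp.exists_isMinOn (nonempty_closedBall.2 zero_le_one) hs.norm
    exact ⟨‖s z0‖, norm_pos_iff.2 (h0 z0 hz0), fun z hz => hmin hz⟩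
  have huc := hcomp.uniformContinuousOn_of_continuous hs
  rw [Metric.uniformContinuousOn_iff] at huc
  obtain ⟨δ, hδ, hδs⟩ := huc m hm0
  obtain ⟨N, hN⟩ := exists_nat_gt (1 / δ)
  have hNpos : (0:ℝ) < N := lt_trans (by positivity) hN
  have hmem : ∀ (k : ℕ), k ≤ N → ∀ z ∈ closedBall (0:ℂ) 1,
      ((k : ℝ) / N) • z ∈ closedBall (0:ℂ) 1 := by
    intro k hk z hz
    rw [mem_closedBall_zero_iff] at hz ⊢
    rw [norm_smul, Real.norm_of_nonneg (by positivity)]
    have h1 : (k : ℝ) / N ≤ 1 := by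
      rw [div_le_one hNpos]; exact_mod_cast hk
    calc (k : ℝ) / N * ‖z‖ ≤ 1 * 1 := by
          apply mul_le_mul h1 hz (norm_nonneg _) zero_le_one
      _ = 1 := by norm_num
  -- quotients are near one
  have hq : ∀ k < N, ∀ z ∈ closedBall (0:ℂ) 1,
      s ((((k+1 : ℕ) : ℝ) / N) • z) / s (((k : ℝ) / N) • z) ∈ Complex.slitPlane := by
    intro k hk z hz
    have hz1 := hmem k hk.le z hz
    have hz2 := hmem (k+1) hk z hz
    have hd : dist ((((k+1 : ℕ) : ℝ) / N) • z) (((k : ℝ) / N) • z) < δ := by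
      rw [dist_eq_norm, ← sub_smul, norm_smul]
      have : (((k+1 : ℕ) : ℝ) / N) - ((k : ℝ) / N) = 1 / N := by
        push_cast; ring
      rw [this, Real.norm_of_nonneg (by positivity)]
      have h2 : ‖z‖ ≤ 1 := by rwa [mem_closedBall_zero_iff] at hz
      have h3 : 1 / (N:ℝ) < δ := by
        rw [div_lt_comm₀ hNpos hδ]; exact hN
      calc 1 / (N:ℝ) * ‖z‖ ≤ 1 / (N:ℝ) * 1 := by gcongr
        _ < δ := by rw [mul_one]; exact h3
    have hd' := hδs _ hz2 _ hz1 hd
    have hne := h0 _ hz1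
    have hlow := hm _ hz1
    rw [dist_eq_norm] at hd'
    have hlt : ‖s ((((k+1 : ℕ) : ℝ) / N) • z) / s (((k : ℝ) / N) • z) - 1‖ < 1 := by
      rw [div_sub_one hne, norm_div, div_lt_one (norm_pos_iff.2 hne)]
      exact lt_of_lt_of_le hd' hlow
    left
    have h5 := abs_le.1 (Complex.abs_re_le_norm
      (s ((((k+1 : ℕ) : ℝ) / N) • z) / s (((k : ℝ) / N) • z) - 1))
    have h6 := h5.1
    rw [Complex.sub_re, Complex.one_re] at h6
    linarith
  have hcont1 : ∀ k ≤ N, ContinuousOn (fun z : ℂ => s (((k : ℝ) / N) • z)) (closedBall 0 1) := by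
    intro k hk
    apply hs.comp (by fun_prop)
    intro z hz
    exact hmem k hk z hz
  refine ⟨fun z => Complex.log (s 0) + ∑ k ∈ Finset.range N,
    Complex.log (s ((((k+1 : ℕ) : ℝ) / N) • z) / s (((k : ℝ) / N) • z)), ?_, ?_⟩
  · apply ContinuousOn.add continuousOn_const
    apply continuousOn_finsetSum
    intro k hk
    rw [Finset.mem_range] at hk
    apply ContinuousOn.clog
    · apply ContinuousOn.div (hcont1 (k+1) hk) (hcont1 k hk.le)
      intro z hz
      exact h0 _ (hmem k hk.le z hz)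
    · intro z hz
      exact hq k hk z hz
  · intro z hz
    rw [Complex.exp_add, Complex.exp_sum, Complex.exp_log (h0 0 (by simp))]
    have hprod : ∀ n ≤ N, s 0 * ∏ k ∈ Finset.range n,
        Complex.exp (Complex.log (s ((((k+1 : ℕ) : ℝ) / N) • z) / s (((k : ℝ) / N) • z)))
        = s (((n : ℝ) / N) • z) := by
      intro n
      induction n with
      | zero => intro _; simp
      | succ n ih =>
        intro hn
        rw [Finset.prod_range_succ, ← mul_assoc, ih (by omega)]
        have hne1 := h0 _ (hmem n (by omega) z hz)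
        have hne2 := h0 _ (hmem (n+1) hn z hz)
        rw [Complex.exp_log (div_ne_zero hne2 hne1)]
        rw [mul_div_cancel₀ _ hne1]
    have := hprod N le_rfl
    rw [this]
    rw [div_self hNpos.ne', one_smul]

/-- The primitive cube root of unity `exp (2πi/3)`. -/
noncomputable def om : ℂ := Complex.exp (2 * Real.pi / 3 * I)

theorem om_eq : om = -1/2 + (Real.sqrt 3 / 2 : ℝ) * I := by
  unfold om
  have h1 : (2 * (Real.pi : ℂ) / 3) = ((2 * Real.pi / 3 : ℝ) : ℂ) := by push_cast; ring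
  rw [h1, Complex.exp_mul_I, ← Complex.ofReal_cos, ← Complex.ofReal_sin]
  have hc : Real.cos (2 * Real.pi / 3) = -1/2 := by
    have : 2 * Real.pi / 3 = Real.pi - Real.pi / 3 := by ring
    rw [this, Real.cos_pi_sub, Real.cos_pi_div_three]; norm_num
  have hs : Real.sin (2 * Real.pi / 3) = Real.sqrt 3 / 2 := by
    have : 2 * Real.pi / 3 = Real.pi - Real.pi / 3 := by ring
    rw [this, Real.sin_pi_sub, Real.sin_pi_div_three]
  rw [hc, hs]
  push_cast; ring

theorem om_cube : om ^ 3 = 1 := by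
  unfold om
  rw [← Complex.exp_nat_mul]
  have : ((3 : ℕ) : ℂ) * (2 * Real.pi / 3 * I) = 2 * Real.pi * I := by push_cast; ring
  rw [this, Complex.exp_two_pi_mul_I]

theorem norm_om : ‖om‖ = 1 := by
  unfold om
  have h1 : (2 * (Real.pi : ℂ) / 3) = ((2 * Real.pi / 3 : ℝ) : ℂ) := by push_cast; ring
  rw [h1]
  exact Complex.norm_exp_ofReal_mul_I _

theorem om_ne_zero : om ≠ 0 := by
  unfold om; exact Complex.exp_ne_zero _

theorem om_inv : om⁻¹ = om ^ 2 := by
  have h := om_cube
  have h0 := om_ne_zero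
  field_simp
  rw [← h]

/-- A continuous map on the closed unit disk with `s (ω z) = ω⁻¹ s z` on the boundary
has a zero. -/
theorem exists_zero_of_equivariant (s : ℂ → ℂ) (hs : ContinuousOn s (closedBall 0 1))
    (heq : ∀ z : ℂ, ‖z‖ = 1 → s (om * z) = om⁻¹ * s z) :
    ∃ z ∈ closedBall (0:ℂ) 1, s z = 0 := by
  by_contra hcon
  push Not at hcon
  obtain ⟨h, hh, hexp⟩ := exists_log_on_disk s hs hcon
  -- parametrize the circle
  have hcirc : ∀ t : ℝ, ‖Complex.exp (t * I)‖ = 1 := fun t => Complex.norm_exp_ofReal_mul_I t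
  have hmem : ∀ z : ℂ, ‖z‖ = 1 → z ∈ closedBall (0:ℂ) 1 := by
    intro z hz; rw [mem_closedBall_zero_iff]; exact hz.le
  have hommem : ∀ z : ℂ, ‖z‖ = 1 → ‖om * z‖ = 1 := by
    intro z hz; rw [norm_mul, norm_om, hz]; norm_num
  have hint : ∀ z : ℂ, ‖z‖ = 1 → ∃ n : ℤ,
      h (om * z) - h z = -(2 * Real.pi / 3 * I) + n * (2 * Real.pi * I) := by
    intro z hz
    have h1 := hexp z (hmem z hz)
    have h2 := hexp (om * z) (hmem _ (hommem z hz))
    have h3 := heq z hz
    rw [h1, h2] at h3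
    have h4 : om⁻¹ = Complex.exp (-(2 * Real.pi / 3 * I)) := by
      rw [Complex.exp_neg]; rfl
    rw [h4, ← Complex.exp_add, Complex.exp_eq_exp_iff_exists_int] at h3
    obtain ⟨n, hn⟩ := h3
    exact ⟨n, by rw [hn]; ring⟩
  choose! n hn using hint
  -- continuity of the integer valued function
  have hncont : Continuous (fun t : ℝ => n (Complex.exp (t * I))) := by
    rw [Int.isClosedEmbedding_coe_real.isEmbedding.continuous_iff]
    have hform : (fun t : ℝ => ((n (Complex.exp (t * I)) : ℤ) : ℝ)) = fun t : ℝ =>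
        ((h (om * Complex.exp (t * I)) - h (Complex.exp (t * I)) + (2 * Real.pi / 3 * I)) /
          (2 * Real.pi * I)).re := by
      funext t
      rw [hn _ (hcirc t)]
      have h2pi : (2 * (Real.pi : ℂ) * I) ≠ 0 := Complex.two_pi_I_ne_zero
      have : (-(2 * (Real.pi : ℂ) / 3 * I) + (n (Complex.exp (t * I)) : ℂ) * (2 * Real.pi * I)
          + (2 * Real.pi / 3 * I)) / (2 * Real.pi * I) = (n (Complex.exp (t * I)) : ℂ) := by
        field_simp
        ring
      rw [this]
      simp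
    show Continuous (fun t : ℝ => ((n (Complex.exp (t * I)) : ℤ) : ℝ))
    rw [hform]
    apply Complex.continuous_re.comp
    apply Continuous.div_const
    apply Continuous.add _ continuous_const
    apply Continuous.sub
    · exact hh.comp_continuous (by fun_prop) (fun t => hmem _ (hommem _ (hcirc t)))
    · exact hh.comp_continuous (by fun_prop) (fun t => hmem _ (hcirc t))
  have hconst : ∀ t t' : ℝ, n (Complex.exp (t * I)) = n (Complex.exp (t' * I)) := by
    intro t t'
    exact PreconnectedSpace.constant inferInstance hncont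
  -- the three points 1, ω, ω²
  have e0 : Complex.exp ((0:ℝ) * I) = 1 := by simp
  have e1 : Complex.exp ((2 * Real.pi / 3 : ℝ) * I) = om := by
    unfold om; push_cast; rfl
  have e2 : Complex.exp ((2 * (2 * Real.pi / 3) : ℝ) * I) = om * om := by
    unfold om; rw [← Complex.exp_add]; push_cast; ring_nf
  have k1 := hn 1 (by simp)
  have k2 := hn om norm_om
  have k3 := hn (om * om) (hommem _ norm_om)
  have c1 : n om = n 1 := by rw [← e0, ← e1]; exact hconst _ _
  have c2 : n (om * om) = n 1 := by rw [← e0, ← e2]; exact hconst _ _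
  rw [c1] at k2
  rw [c2] at k3
  have hcube : om * (om * om) = 1 := by
    have := om_cube
    rw [pow_succ, pow_two] at this
    rw [← mul_assoc]; exact this
  rw [hcube] at k3
  rw [mul_one] at k1
  have hsum : (3 * (n 1 : ℂ) - 1) * (2 * Real.pi * I) = 0 := by
    linear_combination -k1 - k2 - k3
  rcases mul_eq_zero.1 hsum with h1 | h1
  · have h2 : (3 * (n 1 : ℤ) - 1 : ℤ) = 0 := by exact_mod_cast h1
    omega
  · exact Complex.two_pi_I_ne_zero h1

/-- Real numbers `a, b, c` with `a + ω b + ω² c = 0` are equal. -/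
theorem eq_of_om_comb (a b c : ℝ) (h : (a : ℂ) + om * b + om ^ 2 * c = 0) : a = b ∧ b = c := by
  have hsq : om ^ 2 = -1/2 - (Real.sqrt 3 / 2 : ℝ) * I := by
    rw [om_eq]
    have h3 : (Real.sqrt 3 / 2) * (Real.sqrt 3 / 2) = 3 / 4 := by
      have := Real.mul_self_sqrt (show (0:ℝ) ≤ 3 by norm_num)
      nlinarith
    have h3' : ((Real.sqrt 3 / 2 : ℝ) : ℂ) * ((Real.sqrt 3 / 2 : ℝ) : ℂ) = 3 / 4 := by
      rw [← Complex.ofReal_mul, h3]; norm_num
    have : ((-1/2 : ℂ) + (Real.sqrt 3 / 2 : ℝ) * I) ^ 2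
        = 1/4 - ((Real.sqrt 3 / 2 : ℝ) : ℂ) * I
          + ((Real.sqrt 3 / 2 : ℝ) : ℂ) * ((Real.sqrt 3 / 2 : ℝ) : ℂ) * (I * I) := by ring
    rw [this, h3', Complex.I_mul_I]
    ring
  rw [hsq, om_eq] at h
  have hre := congrArg Complex.re h
  have him := congrArg Complex.im h
  simp at hre him
  have hs3 : (0:ℝ) < Real.sqrt 3 := Real.sqrt_pos.2 (by norm_num)
  have hbc : b = c := by
    have : Real.sqrt 3 * (b - c) = 0 := by linarith
    rcases mul_eq_zero.1 this with h1 | h1
    · exact absurd h1 hs3.ne'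
    · linarith
  refine ⟨?_, hbc⟩
  rw [hbc] at hre ⊢
  linarith

/-- Every real function on `ℂ × ℂ`, continuous away from the origin, takes equal values at the
three points `w, ω w, ω² w` of some orbit. -/
theorem exists_equal_on_orbit (ρ : ℂ × ℂ → ℝ) (hρ : ContinuousOn ρ {v | v ≠ 0}) :
    ∃ w : ℂ × ℂ, w ≠ 0 ∧ ρ w = ρ (om • w) ∧ ρ (om • w) = ρ (om ^ 2 • w) := by
  let W : ℂ → ℂ × ℂ := fun z => (z, ((1 - ‖z‖ : ℝ) : ℂ))
  have hWcont : Continuous W := by fun_prop
  have hW0 : ∀ z, W z ≠ 0 := by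
    intro z hz
    have h1 : z = 0 := congrArg Prod.fst hz
    have h2 : ((1 - ‖z‖ : ℝ) : ℂ) = 0 := congrArg Prod.snd hz
    rw [h1] at h2
    simp at h2
  have hne : ∀ (c : ℂ), c ≠ 0 → ∀ z, c • W z ≠ 0 := fun c hc z => smul_ne_zero hc (hW0 z)
  have hcont : ∀ c : ℂ, c ≠ 0 → Continuous (fun z => ρ (c • W z)) := by
    intro c hc
    exact hρ.comp_continuous (by fun_prop) (fun z => hne c hc z)
  let s : ℂ → ℂ := fun z => (ρ (W z) : ℂ) + om * (ρ (om • W z) : ℂ) + om ^ 2 * (ρ (om ^ 2 • W z) : ℂ)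
  have hscont : Continuous s := by
    have c0 : Continuous (fun z => ρ (W z)) := by
      have := hcont 1 one_ne_zero
      simpa using this
    have c1 := hcont om om_ne_zero
    have c2 := hcont (om ^ 2) (pow_ne_zero 2 om_ne_zero)
    exact ((Complex.continuous_ofReal.comp c0).add
      (continuous_const.mul (Complex.continuous_ofReal.comp c1))).add
      (continuous_const.mul (Complex.continuous_ofReal.comp c2))
  obtain ⟨z, hz, hsz⟩ := exists_zero_of_equivariant s hscont.continuousOn (by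
    intro z hz
    have hWz : W (om * z) = om • W z := by
      show ((om * z, ((1 - ‖om * z‖ : ℝ) : ℂ)) : ℂ × ℂ) = om • ((z, ((1 - ‖z‖ : ℝ) : ℂ)) : ℂ × ℂ)
      rw [norm_mul, norm_om, hz]
      simp
    show (ρ (W (om * z)) : ℂ) + om * (ρ (om • W (om * z)) : ℂ)
        + om ^ 2 * (ρ (om ^ 2 • W (om * z)) : ℂ)
      = om⁻¹ * ((ρ (W z) : ℂ) + om * (ρ (om • W z) : ℂ) + om ^ 2 * (ρ (om ^ 2 • W z) : ℂ))
    rw [hWz, smul_smul, smul_smul]
    have h2 : om * om = om ^ 2 := by ring
    have h3 : om ^ 2 * om = 1 := by rw [← om_cube]; ring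
    rw [h2, h3, one_smul, om_inv]
    have h3' : om ^ 2 * om = 1 := h3
    linear_combination (-(ρ (om • W z) : ℂ) - om * (ρ (om ^ 2 • W z) : ℂ)) * h3')
  refine ⟨W z, hW0 z, ?_⟩
  exact eq_of_om_comb _ _ _ hsz

end Pool.Agent.Lib.MP_21eb72_gt
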