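import Mathlib
import Pool.Agent.Lib.MP_21eb72_gt.Topo

/-!
# Five points of a function on a star-shaped surface agreeing with an affine function
-/

set_option autoImplicit false

namespace Pool.Agent.Lib.MP_21eb72_gt

open Complex Metric Set

/-- Intermediate value theorem on each of five arcs. -/
theorem exists_zero_on_arc (ψ : ℝ → ℝ) (hψ : Continuous ψ) (c : ℝ) (a b : ℝ) (hab : a < b)
    (ha : ψ a = c) (hb : ψ b = -c) : ∃ t ∈ Ico a b, ψ t = 0 := by
  rcases lt_trichotomy c 0 with h | h | h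
  · have h0 : (0:ℝ) ∈ Icc (ψ a) (ψ b) := by rw [ha, hb]; constructor <;> linarith
    obtain ⟨t, ht, ht0⟩ := intermediate_value_Icc hab.le hψ.continuousOn h0
    refine ⟨t, ⟨ht.1, lt_of_le_of_ne ht.2 ?_⟩, ht0⟩
    rintro rfl
    rw [hb] at ht0; linarith
  · exact ⟨a, ⟨le_rfl, hab⟩, by rw [ha, h]⟩
  · have h0 : (0:ℝ) ∈ Icc (ψ b) (ψ a) := by rw [ha, hb]; constructor <;> linarith
    obtain ⟨t, ht, ht0⟩ := intermediate_value_Icc' hab.le hψ.continuousOn h0
    refine ⟨t, ⟨ht.1, lt_of_le_of_ne ht.2 ?_⟩, ht0⟩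
    rintro rfl
    rw [hb] at ht0; linarith

theorem exp_mul_I_eq (t : ℝ) : Complex.exp (t * I) = (Real.cos t : ℂ) + (Real.sin t : ℂ) * I := by
  rw [Complex.exp_mul_I, ← Complex.ofReal_cos, ← Complex.ofReal_sin]

/-- Hexagon lemma: if `F` is continuous off the origin and odd at `w, ω w, ω² w`, then after
subtracting a linear function of the coordinates, `F` has a zero in each of five consecutive
sixths of the circle through `w`. -/
theorem exists_five_zeros (F : ℂ × ℂ → ℝ) (hF : ContinuousOn F {v | v ≠ 0}) (w : ℂ × ℂ)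
    (hw : w ≠ 0) (h0 : F (-w) = - F w) (h1 : F (-(om • w)) = - F (om • w))
    (h2 : F (-(om ^ 2 • w)) = - F (om ^ 2 • w)) :
    ∃ (b1 b2 : ℝ) (θ : Fin 5 → ℝ),
      (∀ j : Fin 5, θ j ∈ Ico ((j : ℝ) * (Real.pi / 3)) (((j : ℝ) + 1) * (Real.pi / 3))) ∧
      ∀ j : Fin 5, F (Complex.exp (θ j * I) • w) = b1 * Real.cos (θ j) + b2 * Real.sin (θ j) := by
  have hpi := Real.pi_pos
  have hs3 : (0:ℝ) < Real.sqrt 3 := Real.sqrt_pos.2 (by norm_num)
  have hs3' : Real.sqrt 3 * Real.sqrt 3 = 3 := Real.mul_self_sqrt (by norm_num)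
  have hsq : om ^ 2 = -1/2 - (Real.sqrt 3 / 2 : ℝ) * I := by
    have h3 := om_cube
    have h4 := om_eq
    have : om ^ 2 = om⁻¹ := om_inv.symm
    have h5 : om * (-1/2 - (Real.sqrt 3 / 2 : ℝ) * I) = 1 := by
      rw [h4]
      have h6 : ((Real.sqrt 3 / 2 : ℝ) : ℂ) * ((Real.sqrt 3 / 2 : ℝ) : ℂ) = 3 / 4 := by
        rw [← Complex.ofReal_mul]
        have : Real.sqrt 3 / 2 * (Real.sqrt 3 / 2) = 3 / 4 := by nlinarith
        rw [this]; norm_num
      have h7 : (-1 / 2 + ((Real.sqrt 3 / 2 : ℝ) : ℂ) * I) * (-1/2 - ((Real.sqrt 3 / 2 : ℝ) : ℂ) * I)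
        = 1/4 - ((Real.sqrt 3 / 2 : ℝ) : ℂ) * ((Real.sqrt 3 / 2 : ℝ) : ℂ) * (I * I) := by ring
      rw [h7, h6, Complex.I_mul_I]; norm_num
    rw [this]
    exact (eq_inv_of_mul_eq_one_right h5).symm
  set F0 := F w with hF0
  set F2 := F (om • w) with hF2
  set F4 := F (om ^ 2 • w) with hF4
  -- F1 = F (ζ w) with ζ = -ω²
  set F1 : ℝ := -F4 with hF1
  set b1 : ℝ := (2 * F0 + F1 - F2) / 3 with hb1
  set b2 : ℝ := (F1 + F2) / Real.sqrt 3 with hb2
  set c : ℝ := (F0 - F1 + F2) / 3 with hc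
  let ψ : ℝ → ℝ := fun t => F (Complex.exp (t * I) • w) - b1 * Real.cos t - b2 * Real.sin t
  have hψ : Continuous ψ := by
    have hcF : Continuous (fun t : ℝ => F (Complex.exp (t * I) • w)) := by
      apply hF.comp_continuous (by fun_prop)
      intro t
      exact smul_ne_zero (Complex.exp_ne_zero _) hw
    exact (hcF.sub (by fun_prop)).sub (by fun_prop)
  -- the exponentials at multiples of π/3
  have cos1 : Real.cos (1 * (Real.pi / 3)) = 1/2 := by rw [one_mul, Real.cos_pi_div_three]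
  have sin1 : Real.sin (1 * (Real.pi / 3)) = Real.sqrt 3 / 2 := by
    rw [one_mul, Real.sin_pi_div_three]
  have cos2 : Real.cos (2 * (Real.pi / 3)) = -1/2 := by
    have : 2 * (Real.pi / 3) = Real.pi - Real.pi / 3 := by ring
    rw [this, Real.cos_pi_sub, Real.cos_pi_div_three]; norm_num
  have sin2 : Real.sin (2 * (Real.pi / 3)) = Real.sqrt 3 / 2 := by
    have : 2 * (Real.pi / 3) = Real.pi - Real.pi / 3 := by ring
    rw [this, Real.sin_pi_sub, Real.sin_pi_div_three]
  have cos3 : Real.cos (3 * (Real.pi / 3)) = -1 := by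
    have : 3 * (Real.pi / 3) = Real.pi := by ring
    rw [this, Real.cos_pi]
  have sin3 : Real.sin (3 * (Real.pi / 3)) = 0 := by
    have : 3 * (Real.pi / 3) = Real.pi := by ring
    rw [this, Real.sin_pi]
  have cos4 : Real.cos (4 * (Real.pi / 3)) = -1/2 := by
    have : 4 * (Real.pi / 3) = Real.pi / 3 + Real.pi := by ring
    rw [this, Real.cos_add_pi, Real.cos_pi_div_three]; norm_num
  have sin4 : Real.sin (4 * (Real.pi / 3)) = -(Real.sqrt 3 / 2) := by
    have : 4 * (Real.pi / 3) = Real.pi / 3 + Real.pi := by ring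
    rw [this, Real.sin_add_pi, Real.sin_pi_div_three]
  have cos5 : Real.cos (5 * (Real.pi / 3)) = 1/2 := by
    have : 5 * (Real.pi / 3) = -(Real.pi / 3) + 2 * Real.pi := by ring
    rw [this, Real.cos_add_two_pi, Real.cos_neg, Real.cos_pi_div_three]
  have sin5 : Real.sin (5 * (Real.pi / 3)) = -(Real.sqrt 3 / 2) := by
    have : 5 * (Real.pi / 3) = -(Real.pi / 3) + 2 * Real.pi := by ring
    rw [this, Real.sin_add_two_pi, Real.sin_neg, Real.sin_pi_div_three]
  have ex : ∀ (t cc ss : ℝ), Real.cos t = cc → Real.sin t = ss →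
      Complex.exp (t * I) = (cc : ℂ) + (ss : ℂ) * I := by
    intro t cc ss h h'
    rw [exp_mul_I_eq, h, h']
  have e0 : Complex.exp (((0 * (Real.pi / 3) : ℝ)) * I) = 1 := by simp
  have e1 : Complex.exp (((1 * (Real.pi / 3) : ℝ)) * I) = - om ^ 2 := by
    rw [ex _ _ _ cos1 sin1, hsq]; push_cast; ring
  have e2 : Complex.exp (((2 * (Real.pi / 3) : ℝ)) * I) = om := by
    rw [ex _ _ _ cos2 sin2, om_eq]; push_cast; ring
  have e3 : Complex.exp (((3 * (Real.pi / 3) : ℝ)) * I) = -1 := by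
    rw [ex _ _ _ cos3 sin3]; push_cast; ring
  have e4 : Complex.exp (((4 * (Real.pi / 3) : ℝ)) * I) = om ^ 2 := by
    rw [ex _ _ _ cos4 sin4, hsq]; push_cast; ring
  have e5 : Complex.exp (((5 * (Real.pi / 3) : ℝ)) * I) = - om := by
    rw [ex _ _ _ cos5 sin5, om_eq]; push_cast; ring
  have hb2s : b2 * (Real.sqrt 3 / 2) = (F1 + F2) / 2 := by
    rw [hb2]; field_simp
  have v0 : ψ (0 * (Real.pi / 3)) = c := by
    show F (Complex.exp (((0 * (Real.pi / 3) : ℝ)) * I) • w) - b1 * Real.cos (0 * (Real.pi / 3))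
      - b2 * Real.sin (0 * (Real.pi / 3)) = c
    rw [e0, one_smul, zero_mul, Real.cos_zero, Real.sin_zero, ← hF0, hb1, hc]
    ring
  have v1 : ψ (1 * (Real.pi / 3)) = -c := by
    show F (Complex.exp (((1 * (Real.pi / 3) : ℝ)) * I) • w) - b1 * Real.cos (1 * (Real.pi / 3))
      - b2 * Real.sin (1 * (Real.pi / 3)) = -c
    rw [e1, neg_smul, h2, cos1, sin1, hb2s, hb1, hc, hF1]
    ring
  have v2 : ψ (2 * (Real.pi / 3)) = c := by
    show F (Complex.exp (((2 * (Real.pi / 3) : ℝ)) * I) • w) - b1 * Real.cos (2 * (Real.pi / 3))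
      - b2 * Real.sin (2 * (Real.pi / 3)) = c
    rw [e2, ← hF2, cos2, sin2, hb2s, hb1, hc, hF1]
    ring
  have v3 : ψ (3 * (Real.pi / 3)) = -c := by
    show F (Complex.exp (((3 * (Real.pi / 3) : ℝ)) * I) • w) - b1 * Real.cos (3 * (Real.pi / 3))
      - b2 * Real.sin (3 * (Real.pi / 3)) = -c
    rw [e3, neg_smul, one_smul, h0, cos3, sin3, hb1, hc, hF1]
    ring
  have v4 : ψ (4 * (Real.pi / 3)) = c := by
    show F (Complex.exp (((4 * (Real.pi / 3) : ℝ)) * I) • w) - b1 * Real.cos (4 * (Real.pi / 3))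
      - b2 * Real.sin (4 * (Real.pi / 3)) = c
    rw [e4, ← hF4, cos4, sin4, mul_neg, hb2s, hb1, hc, hF1]
    ring
  have v5 : ψ (5 * (Real.pi / 3)) = -c := by
    show F (Complex.exp (((5 * (Real.pi / 3) : ℝ)) * I) • w) - b1 * Real.cos (5 * (Real.pi / 3))
      - b2 * Real.sin (5 * (Real.pi / 3)) = -c
    rw [e5, neg_smul, h1, cos5, sin5, mul_neg, hb2s, hb1, hc, hF1]
    ring
  have key : ∀ j : Fin 5, ∃ t ∈ Ico ((j : ℝ) * (Real.pi / 3)) (((j : ℝ) + 1) * (Real.pi / 3)),
      ψ t = 0 := by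
    intro j
    fin_cases j
    · have := exists_zero_on_arc ψ hψ c (0 * (Real.pi / 3)) (1 * (Real.pi / 3)) (by nlinarith) v0 v1
      simpa using this
    · have := exists_zero_on_arc ψ hψ (-c) (1 * (Real.pi / 3)) (2 * (Real.pi / 3)) (by nlinarith)
        v1 (by rw [v2]; ring)
      have e : (1:ℝ) + 1 = 2 := by norm_num
      simpa [e] using this
    · have := exists_zero_on_arc ψ hψ (c) (2 * (Real.pi / 3)) (3 * (Real.pi / 3)) (by nlinarith)
        v2 v3
      have e : (2:ℝ) + 1 = 3 := by norm_num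
      simpa [e] using this
    · have := exists_zero_on_arc ψ hψ (-c) (3 * (Real.pi / 3)) (4 * (Real.pi / 3)) (by nlinarith)
        v3 (by rw [v4]; ring)
      have e : (3:ℝ) + 1 = 4 := by norm_num
      simpa [e] using this
    · have := exists_zero_on_arc ψ hψ (c) (4 * (Real.pi / 3)) (5 * (Real.pi / 3)) (by nlinarith)
        v4 v5
      have e : (4:ℝ) + 1 = 5 := by norm_num
      simpa [e] using this
  choose θ hθ hθ0 using key
  refine ⟨b1, b2, θ, hθ, fun j => ?_⟩
  have := hθ0 j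
  have h : F (Complex.exp (θ j * I) • w) - b1 * Real.cos (θ j) - b2 * Real.sin (θ j) = 0 := this
  linarith

/-- Five distinct points on a star-shaped surface in `ℂ²`, on a common real plane through the
origin, where a function agrees with an affine function of the plane. -/
theorem exists_five_points (t : ℂ × ℂ → ℝ) (ht : ContinuousOn t {v | v ≠ 0})
    (htpos : ∀ v, v ≠ 0 → 0 < t v) (k : ℂ × ℂ → ℝ)
    (hk : ContinuousOn (fun v => k ((t v : ℂ) • v)) {v | v ≠ 0}) :
    ∃ (w : ℂ × ℂ) (_ : w ≠ 0) (a b1 b2 : ℝ) (c : Fin 5 → ℂ), Function.Injective c ∧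
      ∀ j, (∃ u : ℂ × ℂ, u ≠ 0 ∧ c j • w = (t u : ℂ) • u) ∧
        k (c j • w) = a + b1 * (c j).re + b2 * (c j).im := by
  -- Φ and N
  let N : ℂ × ℂ → ℝ := fun v => (t v)⁻¹
  let Φ : ℂ × ℂ → ℝ := fun v => (t v)⁻¹ * k ((t v : ℂ) • v)
  have hN : ContinuousOn N {v | v ≠ 0} := ht.inv₀ (fun v hv => (htpos v hv).ne')
  have hNpos : ∀ v, v ≠ 0 → 0 < N v := fun v hv => inv_pos.2 (htpos v hv)
  have hΦ : ContinuousOn Φ {v | v ≠ 0} := hN.mul hk
  have hneg : ContinuousOn (fun v : ℂ × ℂ => -v) {v | v ≠ 0} := continuous_neg.continuousOn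
  have hmaps : MapsTo (fun v : ℂ × ℂ => -v) {v | v ≠ 0} {v | v ≠ 0} := fun v hv => neg_ne_zero.2 hv
  let ρ : ℂ × ℂ → ℝ := fun v => (Φ v + Φ (-v)) / (N v + N (-v))
  have hρ : ContinuousOn ρ {v | v ≠ 0} := by
    apply ContinuousOn.div (hΦ.add (hΦ.comp hneg hmaps)) (hN.add (hN.comp hneg hmaps))
    intro v hv
    exact (add_pos (hNpos v hv) (hNpos (-v) (neg_ne_zero.2 hv))).ne'
  obtain ⟨w, hw, e1, e2⟩ := exists_equal_on_orbit ρ hρ
  set a := ρ w with ha
  let F : ℂ × ℂ → ℝ := fun v => Φ v - a * N v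
  have hF : ContinuousOn F {v | v ≠ 0} := hΦ.sub (continuousOn_const.mul hN)
  have hodd : ∀ v, v ≠ 0 → ρ v = a → F (-v) = - F v := by
    intro v hv hρv
    have hpos := add_pos (hNpos v hv) (hNpos (-v) (neg_ne_zero.2 hv))
    have h1 : (Φ v + Φ (-v)) = a * (N v + N (-v)) := by
      rw [← hρv]
      show (Φ v + Φ (-v)) = (Φ v + Φ (-v)) / (N v + N (-v)) * (N v + N (-v))
      rw [div_mul_cancel₀ _ hpos.ne']
    show Φ (-v) - a * N (-v) = -(Φ v - a * N v)
    linarith
  obtain ⟨b1, b2, θ, hθ, hval⟩ := exists_five_zeros F hF w hw (hodd w hw rfl)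
    (hodd _ (smul_ne_zero om_ne_zero hw) e1.symm)
    (hodd _ (smul_ne_zero (pow_ne_zero 2 om_ne_zero) hw) (e1.trans e2).symm)
  let u : Fin 5 → ℂ × ℂ := fun j => Complex.exp (θ j * I) • w
  have hu : ∀ j, u j ≠ 0 := fun j => smul_ne_zero (Complex.exp_ne_zero _) hw
  let c : Fin 5 → ℂ := fun j => (t (u j) : ℂ) * Complex.exp (θ j * I)
  have hcw : ∀ j, c j • w = (t (u j) : ℂ) • u j := by
    intro j
    show ((t (u j) : ℂ) * Complex.exp (θ j * I)) • w = (t (u j) : ℂ) • (Complex.exp (θ j * I) • w)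
    rw [mul_smul]
  have hre : ∀ j, (c j).re = t (u j) * Real.cos (θ j) := by
    intro j
    show ((t (u j) : ℂ) * Complex.exp (θ j * I)).re = _
    rw [Complex.re_ofReal_mul, Complex.exp_ofReal_mul_I_re]
  have him : ∀ j, (c j).im = t (u j) * Real.sin (θ j) := by
    intro j
    show ((t (u j) : ℂ) * Complex.exp (θ j * I)).im = _
    rw [Complex.im_ofReal_mul, Complex.exp_ofReal_mul_I_im]
  refine ⟨w, hw, a, b1, b2, c, ?_, fun j => ⟨⟨u j, hu j, hcw j⟩, ?_⟩⟩
  · -- injectivity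
    intro i j hij
    have hnorm : ∀ j, ‖c j‖ = t (u j) := by
      intro j
      show ‖(t (u j) : ℂ) * Complex.exp (θ j * I)‖ = t (u j)
      rw [norm_mul, Complex.norm_exp_ofReal_mul_I, mul_one, Complex.norm_real,
        Real.norm_of_nonneg (htpos _ (hu j)).le]
    have htt : t (u i) = t (u j) := by rw [← hnorm i, ← hnorm j, hij]
    have hexp : Complex.exp (θ i * I) = Complex.exp (θ j * I) := by
      have h1 : (t (u i) : ℂ) * Complex.exp (θ i * I) = (t (u j) : ℂ) * Complex.exp (θ j * I) := hij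
      rw [htt] at h1
      have h2 : (t (u j) : ℂ) ≠ 0 := by
        exact_mod_cast (htpos _ (hu j)).ne'
      exact mul_left_cancel₀ h2 h1
    rw [Complex.exp_eq_exp_iff_exists_int] at hexp
    obtain ⟨n, hn⟩ := hexp
    have hn' : θ i = θ j + n * (2 * Real.pi) := by
      have h1 : ((θ i : ℂ) - (θ j + n * (2 * Real.pi))) * I = 0 := by
        linear_combination hn
      rcases mul_eq_zero.1 h1 with h | h
      · have h2 : (θ i : ℂ) = ((θ j + n * (2 * Real.pi) : ℝ) : ℂ) := by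
          push_cast; linear_combination h
        exact_mod_cast h2
      · exact absurd h Complex.I_ne_zero
    have hpi := Real.pi_pos
    have bi := hθ i
    have bj := hθ j
    have hi0 : (0:ℝ) ≤ (i : ℝ) := by positivity
    have hj0 : (0:ℝ) ≤ (j : ℝ) := by positivity
    have hi4 : ((i : ℕ) : ℝ) ≤ 4 := by exact_mod_cast (by omega : (i : ℕ) ≤ 4)
    have hj4 : ((j : ℕ) : ℝ) ≤ 4 := by exact_mod_cast (by omega : (j : ℕ) ≤ 4)
    have hn0 : n = 0 := by
      have h1 : θ i < 5 * (Real.pi / 3) := by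
        refine lt_of_lt_of_le bi.2 ?_
        apply mul_le_mul_of_nonneg_right _ (by positivity)
        linarith
      have h2 : θ j < 5 * (Real.pi / 3) := by
        refine lt_of_lt_of_le bj.2 ?_
        apply mul_le_mul_of_nonneg_right _ (by positivity)
        linarith
      have h3 : 0 ≤ θ i := le_trans (by positivity) bi.1
      have h4 : 0 ≤ θ j := le_trans (by positivity) bj.1
      have h5 : (n : ℝ) < 1 := by
        by_contra hcon
        push Not at hcon
        have : 2 * Real.pi ≤ n * (2 * Real.pi) := by nlinarith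
        linarith
      have h6 : (-1 : ℝ) < n := by
        by_contra hcon
        push Not at hcon
        have : n * (2 * Real.pi) ≤ -(2 * Real.pi) := by nlinarith
        linarith
      have h7 : n < 1 := by exact_mod_cast h5
      have h8 : -1 < n := by exact_mod_cast h6
      omega
    rw [hn0] at hn'
    simp at hn'
    -- now θ i = θ j forces i = j
    rw [hn'] at bi
    have h1 : (i : ℝ) * (Real.pi / 3) < ((j : ℝ) + 1) * (Real.pi / 3) := lt_of_le_of_lt bi.1 bj.2
    have h2 : (j : ℝ) * (Real.pi / 3) < ((i : ℝ) + 1) * (Real.pi / 3) := lt_of_le_of_lt bj.1 bi.2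
    have h3 : (i : ℝ) < (j : ℝ) + 1 := lt_of_mul_lt_mul_right h1 (by positivity)
    have h4 : (j : ℝ) < (i : ℝ) + 1 := lt_of_mul_lt_mul_right h2 (by positivity)
    have h5 : (i : ℕ) < (j : ℕ) + 1 := by exact_mod_cast h3
    have h6 : (j : ℕ) < (i : ℕ) + 1 := by exact_mod_cast h4
    exact Fin.ext (by omega)
  · rw [hcw j, hre j, him j]
    have h1 := hval j
    have h2 : (t (u j))⁻¹ * k ((t (u j) : ℂ) • u j) - a * (t (u j))⁻¹
      = b1 * Real.cos (θ j) + b2 * Real.sin (θ j) := h1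
    have hpos := htpos _ (hu j)
    field_simp at h2
    linear_combination h2

end Pool.Agent.Lib.MP_21eb72_gt
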