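import Mathlib

/-!
# Smooth maps whose second derivative has a nontrivial kernel everywhere

If the second derivative `f''(x) : E → (E → G)` has a nonzero kernel at every point of a nonempty
open set, then `f` is affine along some segment.
-/

set_option autoImplicit false

namespace Pool.Agent.Lib.MP_21eb72_gt

open Metric Set Filter Topology Asymptotics

variable {E G : Type*} [NormedAddCommGroup E] [NormedSpace ℝ E] [FiniteDimensional ℝ E]
  [NormedAddCommGroup G] [NormedSpace ℝ G]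

/-- Structure near a point where the rank of a continuous family of linear maps is maximal. -/
theorem exists_complement {F : Type*} [NormedAddCommGroup F] [NormedSpace ℝ F]
    (H : E → E →L[ℝ] F) (U : Set E) (hU : IsOpen U) (hne : U.Nonempty)
    (hH : ∀ x ∈ U, ContinuousAt H x) :
    ∃ x0 ∈ U, ∃ (W : Submodule ℝ E) (c δ : ℝ), 0 < c ∧ 0 < δ ∧ ball x0 δ ⊆ U ∧
      ∀ x ∈ ball x0 δ, ∀ X : E, ∃ u ∈ W, H x X = H x u ∧ c * ‖u‖ ≤ ‖H x X‖ := by
  classical
  -- maximal rank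
  obtain ⟨x0, hx0, hmax⟩ : ∃ x0 ∈ U, ∀ x ∈ U,
      Module.finrank ℝ (LinearMap.range (H x : E →ₗ[ℝ] F)) ≤
        Module.finrank ℝ (LinearMap.range (H x0 : E →ₗ[ℝ] F)) := by
    let rk : E → ℕ := fun x => Module.finrank ℝ (LinearMap.range (H x : E →ₗ[ℝ] F))
    have hb : ∀ x, rk x ≤ Module.finrank ℝ E := fun x => LinearMap.finrank_range_le _
    let S : Set ℕ := {n | ∃ x ∈ U, rk x = n}
    have hSne : S.Nonempty := by
      obtain ⟨x, hx⟩ := hne
      exact ⟨rk x, x, hx, rfl⟩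
    have hSb : BddAbove S := ⟨Module.finrank ℝ E, by rintro n ⟨x, -, rfl⟩; exact hb x⟩
    obtain ⟨x0, hx0, hx0r⟩ := Nat.sSup_mem hSne hSb
    refine ⟨x0, hx0, fun x hx => ?_⟩
    have : rk x ≤ sSup S := le_csSup hSb ⟨x, hx, rfl⟩
    rw [← hx0r] at this
    exact this
  obtain ⟨W, hW⟩ := Submodule.exists_isCompl (LinearMap.ker (H x0 : E →ₗ[ℝ] F))
  -- H x0 is bounded below on W
  have hker : LinearMap.ker ((H x0 : E →ₗ[ℝ] F).comp W.subtype) = ⊥ := by
    rw [LinearMap.ker_eq_bot']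
    intro w hw
    have h1 : (w : E) ∈ LinearMap.ker (H x0 : E →ₗ[ℝ] F) := hw
    have h2 : (w : E) ∈ (LinearMap.ker (H x0 : E →ₗ[ℝ] F)) ⊓ W := ⟨h1, w.2⟩
    rw [hW.inf_eq_bot, Submodule.mem_bot] at h2
    exact Subtype.ext h2
  obtain ⟨K, hK, hanti⟩ := LinearMap.exists_antilipschitzWith
    ((H x0 : E →ₗ[ℝ] F).comp W.subtype) hker
  have hKpos : (0:ℝ) < K := hK
  have hlow : ∀ w ∈ W, ‖w‖ ≤ K * ‖H x0 w‖ := by
    intro w hw
    have h := hanti.le_mul_dist (⟨w, hw⟩ : W) 0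
    rw [dist_zero_right, map_zero, dist_zero_right] at h
    exact h
  set c : ℝ := 1 / (2 * K) with hc
  have hcpos : 0 < c := by positivity
  have hcK : c * K = 1 / 2 := by rw [hc]; field_simp
  -- a ball on which H is close to H x0
  have hcont := hH x0 hx0
  rw [Metric.continuousAt_iff] at hcont
  obtain ⟨δ1, hδ1, hδ1c⟩ := hcont c hcpos
  obtain ⟨δ2, hδ2, hδ2U⟩ := Metric.isOpen_iff.1 hU x0 hx0
  refine ⟨x0, hx0, W, c, min δ1 δ2, hcpos, lt_min hδ1 hδ2,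
    (ball_subset_ball (min_le_right _ _)).trans hδ2U, ?_⟩
  intro x hx X
  have hxU : x ∈ U := hδ2U (ball_subset_ball (min_le_right _ _) hx)
  have hxc : ‖H x - H x0‖ < c := by
    rw [← dist_eq_norm]
    apply hδ1c
    exact mem_ball.1 (ball_subset_ball (min_le_left _ _) hx)
  have hlowx : ∀ w ∈ W, c * ‖w‖ ≤ ‖H x w‖ := by
    intro w hw
    have h1 : ‖H x0 w‖ ≤ ‖H x w‖ + c * ‖w‖ := by
      have h2 : H x0 w = H x w - (H x - H x0) w := by
        rw [sub_apply]; abel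
      rw [h2]
      calc ‖H x w - (H x - H x0) w‖ ≤ ‖H x w‖ + ‖(H x - H x0) w‖ := norm_sub_le _ _
        _ ≤ ‖H x w‖ + ‖H x - H x0‖ * ‖w‖ := by gcongr; exact (H x - H x0).le_opNorm w
        _ ≤ ‖H x w‖ + c * ‖w‖ := by gcongr
    have h3 := hlow w hw
    have h4 : ‖w‖ ≤ K * (‖H x w‖ + c * ‖w‖) := h3.trans (by gcongr)
    have h5 : K * (c * ‖w‖) = ‖w‖ / 2 := by
      rw [← mul_assoc, mul_comm (K:ℝ) c, hcK]; ring
    have h6 : ‖w‖ / 2 ≤ K * ‖H x w‖ := by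
      rw [mul_add, h5] at h4; linarith
    calc c * ‖w‖ = 1 / K * (‖w‖ / 2) := by rw [hc]; field_simp
      _ ≤ 1 / K * (K * ‖H x w‖) := by gcongr
      _ = ‖H x w‖ := by field_simp
  -- the range of H x is the image of W
  have hinj : LinearMap.ker ((H x : E →ₗ[ℝ] F).comp W.subtype) = ⊥ := by
    rw [LinearMap.ker_eq_bot']
    intro w hw
    have h1 : H x (w : E) = 0 := hw
    have h2 := hlowx w w.2
    rw [h1, norm_zero] at h2
    have h3 : ‖(w:E)‖ ≤ 0 := by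
      by_contra hcon
      push Not at hcon
      have := mul_pos hcpos hcon
      linarith
    exact Subtype.ext (norm_le_zero_iff.1 h3)
  have hrange : LinearMap.range ((H x : E →ₗ[ℝ] F).comp W.subtype) =
      LinearMap.range (H x : E →ₗ[ℝ] F) := by
    apply Submodule.eq_of_le_of_finrank_le
    · rintro _ ⟨w, rfl⟩
      exact ⟨(w : E), rfl⟩
    · have e1 : Module.finrank ℝ (LinearMap.range ((H x : E →ₗ[ℝ] F).comp W.subtype)) =
          Module.finrank ℝ W :=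
        LinearMap.finrank_range_of_inj (LinearMap.ker_eq_bot.1 hinj)
      rw [e1]
      refine (hmax x hxU).trans ?_
      have e2 := LinearMap.finrank_range_add_finrank_ker (H x0 : E →ₗ[ℝ] F)
      have e3 := Submodule.finrank_add_eq_of_isCompl hW
      omega
  have hmem : H x X ∈ LinearMap.range ((H x : E →ₗ[ℝ] F).comp W.subtype) := by
    rw [hrange]; exact ⟨X, rfl⟩
  obtain ⟨w, hw⟩ := hmem
  have hw' : H x (w : E) = H x X := hw
  exact ⟨w, w.2, hw'.symm, by rw [← hw']; exact hlowx w w.2⟩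

/-- If the second derivative of `f` has a nontrivial kernel at every point, then `f` is affine
along some segment. The space `F` plays the role of `E →L[ℝ] G`, through the isometry `ev`. -/
theorem exists_affine_segment {F : Type*} [NormedAddCommGroup F] [NormedSpace ℝ F]
    (ev : F →L[ℝ] E →L[ℝ] G) (hev : ∀ φ : F, ‖ev φ‖ = ‖φ‖)
    (f : E → G) (f1 : E → E →L[ℝ] G) (f2 : E → E →L[ℝ] F)
    (f3 : E → E →L[ℝ] E →L[ℝ] F) (U : Set E) (hU : IsOpen U) (hne : U.Nonempty)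
    (h1 : ∀ x ∈ U, HasFDerivAt f (f1 x) x) (h2 : ∀ x ∈ U, HasFDerivAt f1 (ev.comp (f2 x)) x)
    (h3 : ∀ x ∈ U, HasFDerivAt f2 (f3 x) x) (h4 : ∀ x ∈ U, ∃ M3 δ3 : ℝ, 0 < δ3 ∧ ∀ y ∈ ball x δ3, ‖f3 y‖ ≤ M3)
    (s2 : ∀ x ∈ U, ∀ v w, ev (f2 x v) w = ev (f2 x w) v)
    (s3 : ∀ x ∈ U, ∀ u v, f3 x u v = f3 x v u)
    (hker : ∀ x ∈ U, ∃ X : E, X ≠ 0 ∧ f2 x X = 0) :
    ∃ x0 ∈ U, ∃ (X : E) (ε : ℝ), X ≠ 0 ∧ 0 < ε ∧ ∀ t ∈ Icc (0:ℝ) ε, x0 + t • X ∈ U ∧
      f (x0 + t • X) = f x0 + t • f1 x0 X := by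
  have s3' : ∀ x ∈ U, ∀ u v w, ev (f3 x u v) w = ev (f3 x u w) v := by
    intro x hx u v w
    have e0 : ∀ v w : E, HasFDerivAt (fun y => ev (f2 y v) w)
        ((ContinuousLinearMap.apply ℝ G w).comp (ev.comp
          ((ContinuousLinearMap.apply ℝ F v).comp (f3 x)))) x := by
      intro v w
      have e1 : HasFDerivAt (fun x => f2 x v)
          ((ContinuousLinearMap.apply ℝ F v).comp (f3 x)) x :=
        (ContinuousLinearMap.apply ℝ F v).hasFDerivAt.comp x (h3 x hx)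
      have e2 : HasFDerivAt (fun x => ev (f2 x v))
          (ev.comp ((ContinuousLinearMap.apply ℝ F v).comp (f3 x))) x :=
        ev.hasFDerivAt.comp x e1
      exact (ContinuousLinearMap.apply ℝ G w).hasFDerivAt.comp x e2
    have e3 : (fun y => ev (f2 y v) w) =ᶠ[𝓝 x] (fun y => ev (f2 y w) v) := by
      filter_upwards [hU.mem_nhds hx] with y hy
      exact s2 y hy v w
    have e4 := ((e0 w v).congr_of_eventuallyEq e3).unique (e0 v w)
    have e5 := DFunLike.congr_fun e4 u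
    exact e5.symm
  have hev' : ∀ (φ : F) (v : E), ‖ev φ v‖ ≤ ‖φ‖ * ‖v‖ := by
    intro φ v
    rw [← hev φ]
    exact (ev φ).le_opNorm v
  obtain ⟨x0, hx0, W, c, δ, hc, hδ, hball, hW⟩ :=
    exists_complement f2 U hU hne (fun x hx => (h3 x hx).continuousAt)
  obtain ⟨X, hX0, hX⟩ := hker x0 hx0
  -- the third derivative vanishes on the kernel
  have claim2 : ∀ x1 ∈ ball x0 δ, ∀ Y : E, f2 x1 Y = 0 → ∀ v, ev (f3 x1 v Y) Y = 0 := by
    intro x1 hx1 Y hY v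
    have hx1U := hball hx1
    -- derivative of x ↦ f2 x Y Y
    have hd : HasFDerivAt (fun x => ev (f2 x Y) Y)
        ((ContinuousLinearMap.apply ℝ G Y).comp (ev.comp
          ((ContinuousLinearMap.apply ℝ F Y).comp (f3 x1)))) x1 := by
      have e1 : HasFDerivAt (fun x => f2 x Y)
          ((ContinuousLinearMap.apply ℝ F Y).comp (f3 x1)) x1 :=
        (ContinuousLinearMap.apply ℝ F Y).hasFDerivAt.comp x1 (h3 x1 hx1U)
      have e2 : HasFDerivAt (fun x => ev (f2 x Y))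
          (ev.comp ((ContinuousLinearMap.apply ℝ F Y).comp (f3 x1))) x1 :=
        ev.hasFDerivAt.comp x1 e1
      exact (ContinuousLinearMap.apply ℝ G Y).hasFDerivAt.comp x1 e2
    have hO : (fun x => ev (f2 x Y) Y) =O[𝓝 x1] fun x => ‖x - x1‖ ^ 2 := by
      have hO1 : (fun x => f2 x - f2 x1) =O[𝓝 x1] fun x => x - x1 := (h3 x1 hx1U).isBigO_sub
      obtain ⟨C1, hC1⟩ := hO1.bound
      have hbd : ∀ᶠ x in 𝓝 x1, ‖f2 x‖ < ‖f2 x1‖ + 1 := by
        have : ContinuousAt (fun x => ‖f2 x‖) x1 := (h3 x1 hx1U).continuousAt.norm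
        exact this.eventually_lt continuousAt_const (by linarith)
      rw [Asymptotics.isBigO_iff]
      refine ⟨(‖f2 x1‖ + 1) * (C1 * ‖Y‖ / c) ^ 2, ?_⟩
      filter_upwards [hC1, hbd, isOpen_ball.mem_nhds hx1] with x e1 e2 e3
      obtain ⟨u, hu, hu1, hu2⟩ := hW x e3 Y
      have e4 : ev (f2 x Y) Y = ev (f2 x u) u := by
        rw [hu1]
        rw [s2 x (hball e3) u Y, hu1]
      have e5 : ‖f2 x Y‖ ≤ C1 * ‖x - x1‖ * ‖Y‖ := by
        have : f2 x Y = (f2 x - f2 x1) Y := by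
          rw [sub_apply, hY, sub_zero]
        rw [this]
        refine ((f2 x - f2 x1).le_opNorm Y).trans ?_
        gcongr
      have e6 : ‖u‖ ≤ C1 * ‖Y‖ / c * ‖x - x1‖ := by
        have : ‖u‖ ≤ (C1 * ‖x - x1‖ * ‖Y‖) / c := by
          rw [le_div_iff₀ hc]
          calc ‖u‖ * c = c * ‖u‖ := by ring
            _ ≤ _ := hu2.trans e5
        calc ‖u‖ ≤ _ := this
          _ = _ := by ring
      rw [e4]
      have e7 : ‖ev (f2 x u) u‖ ≤ ‖f2 x‖ * ‖u‖ * ‖u‖ :=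
        (hev' _ _).trans (by gcongr; exact (f2 x).le_opNorm u)
      have e8 : 0 ≤ C1 * ‖Y‖ / c * ‖x - x1‖ := (norm_nonneg u).trans e6
      rw [norm_pow, norm_norm]
      calc ‖ev (f2 x u) u‖ ≤ ‖f2 x‖ * ‖u‖ * ‖u‖ := e7
        _ ≤ (‖f2 x1‖ + 1) * (C1 * ‖Y‖ / c * ‖x - x1‖) * (C1 * ‖Y‖ / c * ‖x - x1‖) := by
            gcongr
        _ = _ := by ring
    have hz := hO.hasFDerivAt (𝕜 := ℝ) (by norm_num)
    have huniq := hd.unique hz
    have := DFunLike.congr_fun huniq v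
    simpa using this
  -- choose ε
  have hM3 : ∃ δ' > 0, δ' ≤ δ ∧ ∃ M3 : ℝ, 0 ≤ M3 ∧ ∀ x ∈ ball x0 δ', ‖f3 x‖ ≤ M3 := by
    obtain ⟨M3, δ3, hδ3, hδ3'⟩ := h4 x0 hx0
    refine ⟨min δ3 δ, lt_min hδ3 hδ, min_le_right _ _, max M3 0, le_max_right _ _, ?_⟩
    intro x hx
    exact (hδ3' x (ball_subset_ball (min_le_left _ _) hx)).trans (le_max_left _ _)
  obtain ⟨δ', hδ', hδδ', M3, hM3, hM3b⟩ := hM3
  have hM2 : ∃ δ'' > 0, δ'' ≤ δ' ∧ ∃ M2 : ℝ, 0 ≤ M2 ∧ ∀ x ∈ ball x0 δ'', ‖f2 x‖ ≤ M2 := by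
    have hc2 : ContinuousAt (fun x => ‖f2 x‖) x0 := (h3 x0 hx0).continuousAt.norm
    have hev : ∀ᶠ x in 𝓝 x0, ‖f2 x‖ < ‖f2 x0‖ + 1 :=
      hc2.eventually_lt continuousAt_const (by linarith)
    obtain ⟨δ3, hδ3, hδ3'⟩ := Metric.eventually_nhds_iff_ball.1 hev
    refine ⟨min δ3 δ', lt_min hδ3 hδ', min_le_right _ _, ‖f2 x0‖ + 1, by positivity, ?_⟩
    intro x hx
    exact (hδ3' x (ball_subset_ball (min_le_left _ _) hx)).le
  obtain ⟨δ'', hδ'', hδδ'', M2, hM2, hM2b⟩ := hM2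
  have hXpos : 0 < ‖X‖ := norm_pos_iff.2 hX0
  set ε := δ'' / (2 * ‖X‖) with hε
  have hεpos : 0 < ε := by positivity
  have hmem : ∀ t ∈ Icc (0:ℝ) ε, x0 + t • X ∈ ball x0 δ'' := by
    intro t ht
    rw [mem_ball, dist_eq_norm, add_sub_cancel_left, norm_smul, Real.norm_of_nonneg ht.1]
    calc t * ‖X‖ ≤ ε * ‖X‖ := by gcongr; exact ht.2
      _ = δ'' / 2 := by rw [hε]; field_simp
      _ < δ'' := by linarith
  have hmemU : ∀ t ∈ Icc (0:ℝ) ε, x0 + t • X ∈ U := fun t ht =>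
    hball (ball_subset_ball (hδδ''.trans hδδ') (hmem t ht))
  have hline : ∀ t : ℝ, HasDerivAt (fun t : ℝ => x0 + t • X) X t := by
    intro t
    have : HasDerivAt (fun t : ℝ => t • X) X t := by
      simpa using (hasDerivAt_id t).smul_const X
    simpa using this.const_add x0
  -- y(t) = f2(x0 + tX) X
  let y : ℝ → F := fun t => f2 (x0 + t • X) X
  have hy : ∀ t ∈ Icc (0:ℝ) ε, HasDerivAt y (f3 (x0 + t • X) X X) t := by
    intro t ht
    have e1 : HasDerivAt (fun t : ℝ => f2 (x0 + t • X)) (f3 (x0 + t • X) X) t :=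
      (h3 _ (hmemU t ht)).comp_hasDerivAt t (hline t)
    exact (ContinuousLinearMap.apply ℝ F X).hasFDerivAt.comp_hasDerivAt t e1
  have hbound : ∀ t ∈ Icc (0:ℝ) ε, ‖f3 (x0 + t • X) X X‖ ≤
      (M3 * (1 / c) * (2 * ‖X‖ + M2 * ‖X‖ / c)) * ‖y t‖ := by
    intro t ht
    set x := x0 + t • X with hx
    have hxb : x ∈ ball x0 δ'' := hmem t ht
    have hxb' : x ∈ ball x0 δ' := ball_subset_ball hδδ'' hxb
    have hxb'' : x ∈ ball x0 δ := ball_subset_ball hδδ' hxb'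
    have hxU : x ∈ U := hball hxb''
    obtain ⟨u, hu, hu1, hu2⟩ := hW x hxb'' X
    have hyt : y t = f2 x X := rfl
    have hun : ‖u‖ ≤ 1 / c * ‖y t‖ := by
      rw [hyt, one_div, inv_mul_eq_div, le_div_iff₀ hc]
      calc ‖u‖ * c = c * ‖u‖ := by ring
        _ ≤ _ := hu2
    have hyn : ‖y t‖ ≤ M2 * ‖X‖ := by
      rw [hyt]
      refine ((f2 x).le_opNorm X).trans ?_
      gcongr
      exact hM2b x hxb
    have hun' : ‖u‖ ≤ M2 * ‖X‖ / c := by
      refine hun.trans ?_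
      rw [one_div, inv_mul_eq_div]
      gcongr
    have hY : f2 x (X - u) = 0 := by rw [map_sub, hu1, sub_self]
    have hYn : ‖X - u‖ ≤ ‖X‖ + M2 * ‖X‖ / c := (norm_sub_le _ _).trans (by gcongr)
    rw [← hev]
    apply ContinuousLinearMap.opNorm_le_bound _ (by positivity)
    intro v
    have e1 : ev (f3 x X X) v = ev (f3 x v X) X := by
      rw [s3' x hxU X X v, s3 x hxU X v]
    have e2 : ev (f3 x v X) X = ev (f3 x v X) u + ev (f3 x v u) (X - u) := by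
      have e3 := claim2 x hxb'' (X - u) hY v
      have e4 : ev (f3 x v (X - u)) (X - u) =
          ev (f3 x v X) X - ev (f3 x v X) u - ev (f3 x v u) (X - u) := by
        rw [map_sub (f3 x v) X u, map_sub ev, sub_apply, map_sub (ev (f3 x v X)) X u]
      rw [e4] at e3
      have e5 : ev (f3 x v X) X - (ev (f3 x v X) u + ev (f3 x v u) (X - u)) = 0 := by
        rw [← e3]; abel
      exact sub_eq_zero.1 e5
    rw [e1, e2]
    have hM3x : ‖f3 x‖ ≤ M3 := hM3b x hxb'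
    have b0 : ∀ a b : E, ‖f3 x a b‖ ≤ M3 * ‖a‖ * ‖b‖ := by
      intro a b
      refine ((f3 x).le_opNorm₂ a b).trans ?_
      gcongr
    have b1 : ‖ev (f3 x v X) u‖ ≤ M3 * ‖v‖ * ‖X‖ * ‖u‖ := by
      refine (hev' _ u).trans ?_
      gcongr
      exact b0 v X
    have b2 : ‖ev (f3 x v u) (X - u)‖ ≤ M3 * ‖v‖ * ‖u‖ * (‖X‖ + M2 * ‖X‖ / c) := by
      refine (hev' _ _).trans ?_
      gcongr
      exact b0 v u
    calc ‖ev (f3 x v X) u + ev (f3 x v u) (X - u)‖ ≤ _ := norm_add_le _ _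
      _ ≤ M3 * ‖v‖ * ‖X‖ * ‖u‖ + M3 * ‖v‖ * ‖u‖ * (‖X‖ + M2 * ‖X‖ / c) := add_le_add b1 b2
      _ = M3 * ‖v‖ * (2 * ‖X‖ + M2 * ‖X‖ / c) * ‖u‖ := by ring
      _ ≤ M3 * ‖v‖ * (2 * ‖X‖ + M2 * ‖X‖ / c) * (1 / c * ‖y t‖) := by gcongr
      _ = M3 * (1 / c) * (2 * ‖X‖ + M2 * ‖X‖ / c) * ‖y t‖ * ‖v‖ := by ring
  have hy0 : ∀ t ∈ Icc (0:ℝ) ε, y t = 0 := by
    apply eq_zero_of_abs_deriv_le_mul_abs_self_of_eq_zero_right
      (f' := fun t => f3 (x0 + t • X) X X)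
      (K := (M3 * (1 / c) * (2 * ‖X‖ + M2 * ‖X‖ / c)))
    · intro t ht
      exact (hy t ht).continuousAt.continuousWithinAt
    · intro t ht
      exact (hy t ⟨ht.1, ht.2.le⟩).hasDerivWithinAt
    · show f2 (x0 + (0:ℝ) • X) X = 0
      rw [zero_smul, add_zero]; exact hX
    · intro t ht
      exact hbound t ⟨ht.1, ht.2.le⟩
  -- φ(t) = f'(x0 + tX) X is constant
  have hφ : ∀ t ∈ Icc (0:ℝ) ε, f1 (x0 + t • X) X = f1 x0 X := by
    have e2 : ∀ t ∈ Icc (0:ℝ) ε, HasDerivAt (fun t : ℝ => f1 (x0 + t • X) X)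
        (ev (f2 (x0 + t • X) X) X) t := by
      intro t ht
      have e1 := (h2 _ (hmemU t ht)).comp_hasDerivAt (f := fun t : ℝ => x0 + t • X) t (hline t)
      exact (ContinuousLinearMap.apply ℝ G X).hasFDerivAt.comp_hasDerivAt t e1
    have := constant_of_has_deriv_right_zero (f := fun t : ℝ => f1 (x0 + t • X) X) (a := 0)
      (b := ε) (E := G) (by
        intro t ht
        exact (e2 t ht).continuousAt.continuousWithinAt) (by
        intro t ht
        have ht' : t ∈ Icc (0:ℝ) ε := ⟨ht.1, ht.2.le⟩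
        have e2 := e2 t ht'
        have e3 : f2 (x0 + t • X) X = 0 := hy0 t ht'
        rw [e3] at e2
        simpa using e2.hasDerivWithinAt)
    intro t ht
    have h := this t ht
    simpa using h
  refine ⟨x0, hx0, X, ε, hX0, hεpos, fun t ht => ⟨hmemU t ht, ?_⟩⟩
  have := constant_of_has_deriv_right_zero (f := fun t : ℝ => f (x0 + t • X) - t • f1 x0 X) (a := 0)
    (b := ε) (E := G) (by
      intro t ht
      have e1 : HasDerivAt (fun t : ℝ => f (x0 + t • X)) (f1 (x0 + t • X) X) t :=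
        (h1 _ (hmemU t ht)).comp_hasDerivAt t (hline t)
      have e2 : ContinuousAt (fun t : ℝ => t • f1 x0 X) t := by fun_prop
      exact (e1.continuousAt.sub e2).continuousWithinAt) (by
      intro t ht
      have ht' : t ∈ Icc (0:ℝ) ε := ⟨ht.1, ht.2.le⟩
      have e1 : HasDerivAt (fun t : ℝ => f (x0 + t • X)) (f1 (x0 + t • X) X) t :=
        (h1 _ (hmemU t ht')).comp_hasDerivAt t (hline t)
      have e2 : HasDerivAt (fun t : ℝ => t • f1 x0 X) (f1 x0 X) t := by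
        simpa using (hasDerivAt_id t).smul_const (f1 x0 X)
      have e3 := e1.sub e2
      rw [hφ t ht', sub_self] at e3
      exact e3.hasDerivWithinAt)
  have h := this t ht
  simp only [zero_smul, add_zero, sub_zero] at h
  rw [← h]; abel

end Pool.Agent.Lib.MP_21eb72_gt
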