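import Mathlib

/-!
# Radial function of the small level sets near a nondegenerate minimum
-/

set_option autoImplicit false

namespace Pool.Agent.Lib.MP_21eb72_gt

open Metric Set Filter Topology

variable {V : Type*} [NormedAddCommGroup V] [NormedSpace ℝ V]

/-- Along a ray, the radial derivative is positive. -/
theorem radial_deriv_pos (g' : V → V →L[ℝ] ℝ) (g'' : V → V →L[ℝ] V →L[ℝ] ℝ) (r : ℝ)
    (h2 : ∀ x ∈ ball (0:V) r, HasFDerivAt g' (g'' x) x)
    (hpos : ∀ x ∈ ball (0:V) r, ∀ v : V, v ≠ 0 → 0 < g'' x v v) (h0 : g' 0 = 0)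
    (x : V) (hx : x ∈ ball (0:V) r) (hx0 : x ≠ 0) : 0 < g' x x := by
  have hmem : ∀ s ∈ Icc (0:ℝ) 1, s • x ∈ ball (0:V) r := by
    intro s hs
    rw [mem_ball_zero_iff] at hx ⊢
    rw [norm_smul, Real.norm_of_nonneg hs.1]
    calc s * ‖x‖ ≤ 1 * ‖x‖ := by gcongr; exact hs.2
      _ < r := by rw [one_mul]; exact hx
  have hd : ∀ s ∈ Icc (0:ℝ) 1, HasDerivAt (fun s : ℝ => g' (s • x) x) (g'' (s • x) x x) s := by
    intro s hs
    have h1 : HasDerivAt (fun s : ℝ => s • x) x s := by
      simpa using (hasDerivAt_id s).smul_const x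
    have h3 : HasDerivAt (fun s : ℝ => g' (s • x)) (g'' (s • x) x) s :=
      (h2 _ (hmem s hs)).comp_hasDerivAt s h1
    exact (ContinuousLinearMap.apply ℝ ℝ x).hasFDerivAt.comp_hasDerivAt s h3
  have hmono : StrictMonoOn (fun s : ℝ => g' (s • x) x) (Icc 0 1) := by
    apply strictMonoOn_of_deriv_pos (convex_Icc 0 1)
    · intro s hs
      exact (hd s hs).continuousAt.continuousWithinAt
    · intro s hs
      rw [interior_Icc] at hs
      have hs' : s ∈ Icc (0:ℝ) 1 := ⟨hs.1.le, hs.2.le⟩
      rw [(hd s hs').deriv]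
      exact hpos _ (hmem s hs') x hx0
  have := hmono (left_mem_Icc.2 zero_le_one) (right_mem_Icc.2 zero_le_one) zero_lt_one
  simpa [h0] using this

theorem radial_strictMono (g : V → ℝ) (g' : V → V →L[ℝ] ℝ) (g'' : V → V →L[ℝ] V →L[ℝ] ℝ) (r : ℝ)
    (h1 : ∀ x ∈ ball (0:V) r, HasFDerivAt g (g' x) x)
    (h2 : ∀ x ∈ ball (0:V) r, HasFDerivAt g' (g'' x) x)
    (hpos : ∀ x ∈ ball (0:V) r, ∀ v : V, v ≠ 0 → 0 < g'' x v v) (h0 : g' 0 = 0)
    (v : V) (hv : v ≠ 0) (a b : ℝ) (ha : 0 ≤ a) (hab : a < b) (hb : b * ‖v‖ < r) :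
    g (a • v) < g (b • v) := by
  have hmem : ∀ s ∈ Icc a b, s • v ∈ ball (0:V) r := by
    intro s hs
    rw [mem_ball_zero_iff, norm_smul, Real.norm_of_nonneg (ha.trans hs.1)]
    calc s * ‖v‖ ≤ b * ‖v‖ := by gcongr; exact hs.2
      _ < r := hb
  have hd : ∀ s ∈ Icc a b, HasDerivAt (fun s : ℝ => g (s • v)) (g' (s • v) v) s := by
    intro s hs
    have h3 : HasDerivAt (fun s : ℝ => s • v) v s := by
      simpa using (hasDerivAt_id s).smul_const v
    exact (h1 _ (hmem s hs)).comp_hasDerivAt s h3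
  have hmono : StrictMonoOn (fun s : ℝ => g (s • v)) (Icc a b) := by
    apply strictMonoOn_of_deriv_pos (convex_Icc a b)
    · intro s hs
      exact (hd s hs).continuousAt.continuousWithinAt
    · intro s hs
      rw [interior_Icc] at hs
      have hs' : s ∈ Icc a b := ⟨hs.1.le, hs.2.le⟩
      rw [(hd s hs').deriv]
      have hspos : 0 < s := lt_of_le_of_lt ha hs.1
      have h4 := radial_deriv_pos g' g'' r h2 hpos h0 (s • v) (hmem s hs')
        (smul_ne_zero hspos.ne' hv)
      rw [map_smul, smul_eq_mul] at h4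
      exact (mul_pos_iff_of_pos_left hspos).1 h4
  exact hmono (left_mem_Icc.2 hab.le) (right_mem_Icc.2 hab.le) hab

/-- Near a nondegenerate local minimum with value `0` at the origin, small level sets are
star-shaped with a continuous radial function. -/
theorem exists_radial [FiniteDimensional ℝ V] [Nontrivial V] (g : V → ℝ) (g' : V → V →L[ℝ] ℝ)
    (g'' : V → V →L[ℝ] V →L[ℝ] ℝ) (r : ℝ) (hr : 0 < r)
    (h1 : ∀ x ∈ ball (0:V) r, HasFDerivAt g (g' x) x)
    (h2 : ∀ x ∈ ball (0:V) r, HasFDerivAt g' (g'' x) x)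
    (hpos : ∀ x ∈ ball (0:V) r, ∀ v : V, v ≠ 0 → 0 < g'' x v v) (h0 : g' 0 = 0)
    (hg0 : g 0 = 0) :
    ∃ (κ : ℝ) (t : V → ℝ), ContinuousOn t {v | v ≠ 0} ∧ (∀ v, v ≠ 0 → 0 < t v) ∧
      (∀ v, v ≠ 0 → t v • v ∈ ball (0:V) r) ∧ ∀ v, v ≠ 0 → g (t v • v) = κ := by
  have hmono := radial_strictMono g g' g'' r h1 h2 hpos h0
  set δ := r / 2 with hδ
  have hδpos : 0 < δ := by positivity
  have hδr : δ < r := by rw [hδ]; linarith
  have hcont : ∀ x ∈ ball (0:V) r, ContinuousAt g x := fun x hx => (h1 x hx).continuousAt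
  -- minimum on the sphere
  obtain ⟨m, hm0, hm⟩ : ∃ m : ℝ, 0 < m ∧ ∀ x ∈ sphere (0:V) δ, m ≤ g x := by
    have hne : (sphere (0:V) δ).Nonempty := NormedSpace.sphere_nonempty.2 hδpos.le
    have hco : ContinuousOn g (sphere (0:V) δ) := by
      intro x hx
      apply (hcont x _).continuousWithinAt
      rw [mem_ball_zero_iff]
      rw [mem_sphere_zero_iff_norm] at hx
      rw [hx]; exact hδr
    obtain ⟨x0, hx0, hmin⟩ := (isCompact_sphere (0:V) δ).exists_isMinOn hne hco
    refine ⟨g x0, ?_, fun x hx => hmin hx⟩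
    rw [mem_sphere_zero_iff_norm] at hx0
    have hx0ne : x0 ≠ 0 := by
      rintro rfl
      rw [norm_zero] at hx0
      linarith
    have := hmono x0 hx0ne 0 1 le_rfl zero_lt_one (by rw [one_mul, hx0]; exact hδr)
    simpa [hg0] using this
  set κ := m / 2 with hκ
  have hκpos : 0 < κ := by positivity
  have hκm : κ < m := by rw [hκ]; linarith
  -- existence of t
  have hex : ∀ v : V, v ≠ 0 → ∃ t : ℝ, 0 < t ∧ t * ‖v‖ < δ ∧ g (t • v) = κ := by
    intro v hv
    have hnv : 0 < ‖v‖ := norm_pos_iff.2 hv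
    have hb : (0:ℝ) ≤ δ / ‖v‖ := by positivity
    have hmemv : ∀ s ∈ Icc (0:ℝ) (δ / ‖v‖), s • v ∈ ball (0:V) r := by
      intro s hs
      rw [mem_ball_zero_iff, norm_smul, Real.norm_of_nonneg hs.1]
      calc s * ‖v‖ ≤ δ / ‖v‖ * ‖v‖ := by gcongr; exact hs.2
        _ = δ := by field_simp
        _ < r := hδr
    have hc : ContinuousOn (fun s : ℝ => g (s • v)) (Icc 0 (δ / ‖v‖)) := by
      intro s hs
      have h3 : ContinuousAt (fun s : ℝ => s • v) s := by fun_prop
      exact (ContinuousAt.comp (f := fun s : ℝ => s • v) (hcont _ (hmemv s hs)) h3).continuousWithinAt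
    have hval0 : g ((0:ℝ) • v) = 0 := by rw [zero_smul, hg0]
    have hval1 : m ≤ g ((δ / ‖v‖) • v) := by
      apply hm
      rw [mem_sphere_zero_iff_norm, norm_smul, Real.norm_of_nonneg hb]
      field_simp
    have hκmem : κ ∈ Icc (g ((0:ℝ) • v)) (g ((δ / ‖v‖) • v)) := by
      rw [hval0]; constructor <;> linarith
    obtain ⟨t, ht, htκ⟩ := intermediate_value_Icc hb hc hκmem
    have htκ' : g (t • v) = κ := htκ
    refine ⟨t, ?_, ?_, htκ'⟩
    · rcases ht.1.lt_or_eq with h | h
      · exact h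
      · rw [← h, hval0] at htκ'
        exact absurd htκ' hκpos.ne
    · rcases ht.2.lt_or_eq with h | h
      · rw [lt_div_iff₀ hnv] at h; exact h
      · rw [h] at htκ'
        linarith
  choose! t ht0 ht1 ht2 using hex
  refine ⟨κ, t, ?_, ht0, ?_, ht2⟩
  · intro v0 hv0
    apply ContinuousAt.continuousWithinAt
    have hv0' : v0 ≠ 0 := hv0
    have hevne : ∀ᶠ v in 𝓝 v0, v ≠ 0 := isOpen_ne.mem_nhds hv0'
    have hcontnorm : ∀ a : ℝ, Continuous (fun v : V => a * ‖v‖) := fun a => by fun_prop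
    show Tendsto t (𝓝 v0) (𝓝 (t v0))
    rw [tendsto_order]
    constructor
    · intro a ha
      rcases le_or_gt a 0 with h | h
      · filter_upwards [hevne] with v hv
        exact lt_of_le_of_lt h (ht0 v hv)
      · have hlt : g (a • v0) < κ := by
          rw [← ht2 v0 hv0']
          exact hmono v0 hv0' a (t v0) h.le ha ((ht1 v0 hv0').trans hδr)
        have hav0 : a * ‖v0‖ < δ := lt_of_le_of_lt
          (mul_le_mul_of_nonneg_right ha.le (norm_nonneg _)) (ht1 v0 hv0')
        have hc : ContinuousAt (fun v : V => g (a • v)) v0 := by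
          apply ContinuousAt.comp (f := fun v : V => a • v)
          · apply hcont
            rw [mem_ball_zero_iff, norm_smul, Real.norm_of_nonneg h.le]
            exact hav0.trans hδr
          · fun_prop
        have e1 := hc.eventually_lt continuousAt_const hlt
        have e2 := ((hcontnorm a).continuousAt (x := v0)).eventually_lt continuousAt_const hav0
        filter_upwards [hevne, e1, e2] with v hv h3 h4
        by_contra hcon
        push Not at hcon
        rcases hcon.lt_or_eq with h5 | h5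
        · have := hmono v hv (t v) a (ht0 v hv).le h5 (h4.trans hδr)
          rw [ht2 v hv] at this
          exact lt_asymm this h3
        · rw [← h5, ht2 v hv] at h3
          exact lt_irrefl _ h3
    · intro a ha
      -- choose a' between t v0 and min a (δ/‖v0‖)
      have hnv0 : 0 < ‖v0‖ := norm_pos_iff.2 hv0'
      have hlt' : t v0 < min a (δ / ‖v0‖) := by
        rw [lt_min_iff]
        exact ⟨ha, by rw [lt_div_iff₀ hnv0]; exact ht1 v0 hv0'⟩
      obtain ⟨a', ha1, ha2⟩ := exists_between hlt'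
      rw [lt_min_iff] at ha2
      have ha'0 : 0 < a' := (ht0 v0 hv0').trans ha1
      have hav0 : a' * ‖v0‖ < δ := by
        have := ha2.2
        rwa [lt_div_iff₀ hnv0] at this
      have hlt : κ < g (a' • v0) := by
        rw [← ht2 v0 hv0']
        exact hmono v0 hv0' (t v0) a' (ht0 v0 hv0').le ha1 (hav0.trans hδr)
      have hc : ContinuousAt (fun v : V => g (a' • v)) v0 := by
        apply ContinuousAt.comp (f := fun v : V => a' • v)
        · apply hcont
          rw [mem_ball_zero_iff, norm_smul, Real.norm_of_nonneg ha'0.le]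
          exact hav0.trans hδr
        · fun_prop
      have e1 := (continuousAt_const (y := κ)).eventually_lt hc hlt
      filter_upwards [hevne, e1] with v hv h3
      by_contra hcon
      push Not at hcon
      have hcon' : a' ≤ t v := ha2.1.le.trans hcon
      rcases hcon'.lt_or_eq with h5 | h5
      · have := hmono v hv a' (t v) ha'0.le h5 ((ht1 v hv).trans hδr)
        rw [ht2 v hv] at this
        exact lt_asymm this h3
      · rw [h5, ht2 v hv] at h3
        exact lt_irrefl _ h3
  · intro v hv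
    rw [mem_ball_zero_iff, norm_smul, Real.norm_of_nonneg (ht0 v hv).le]
    exact (ht1 v hv).trans hδr

end Pool.Agent.Lib.MP_21eb72_gt
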