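import Mathlib

/-!
# A symmetric bilinear form is definite on a 4-dimensional space or has a large kernel
-/

set_option autoImplicit false

namespace Pool.Agent.Lib.MP_21eb72_gt

open Module

variable {E : Type*} [AddCommGroup E] [Module ℝ E] [FiniteDimensional ℝ E]

/-- Coordinates: a quadratic form `∑ wᵢ xᵢ²` with four positive weights is positive definite on a
copy of `ℂ × ℂ`. -/
theorem exists_definite_of_card {n : ℕ} (w : Fin n → ℝ) (S : Finset (Fin n)) (hS : 4 ≤ S.card)
    (hw : ∀ i ∈ S, 0 < w i) :
    ∃ j : (ℂ × ℂ) →ₗ[ℝ] (Fin n → ℝ), ∀ v, v ≠ 0 → 0 < ∑ i, w i * (j v i * j v i) := by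
  classical
  obtain ⟨T, hTS, hT⟩ := Finset.exists_subset_card_eq hS
  -- a linear equivalence between ℂ × ℂ and T → ℝ
  have hfin : finrank ℝ (ℂ × ℂ) = finrank ℝ (T → ℝ) := by
    rw [Module.finrank_prod, Complex.finrank_real_complex, Module.finrank_fintype_fun_eq_card]
    simp [hT]
  let e : (ℂ × ℂ) ≃ₗ[ℝ] (T → ℝ) := LinearEquiv.ofFinrankEq _ _ hfin
  let ext : (T → ℝ) →ₗ[ℝ] (Fin n → ℝ) :=
    { toFun := fun v i => if h : i ∈ T then v ⟨i, h⟩ else 0
      map_add' := by
        intro x y; funext i
        by_cases h : i ∈ T <;> simp [h]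
      map_smul' := by
        intro c x; funext i
        by_cases h : i ∈ T <;> simp [h] }
  refine ⟨ext.comp e.toLinearMap, fun v hv => ?_⟩
  have hev : e v ≠ 0 := by
    intro h
    exact hv (e.map_eq_zero_iff.1 h)
  obtain ⟨i, hi⟩ := Function.ne_iff.1 hev
  have hext : ∀ (x : T → ℝ) (i : Fin n), ext x i = if h : i ∈ T then x ⟨i, h⟩ else 0 :=
    fun x i => rfl
  apply Finset.sum_pos'
  · intro k _
    show 0 ≤ w k * (ext (e v) k * ext (e v) k)
    rw [hext]
    by_cases h : k ∈ T
    · simp only [h, dite_true]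
      exact mul_nonneg (hw k (hTS h)).le (mul_self_nonneg _)
    · simp [h]
  · refine ⟨i, Finset.mem_univ _, ?_⟩
    show 0 < w i * (ext (e v) i * ext (e v) i)
    rw [hext]
    have h : (i : Fin n) ∈ T := i.2
    simp only [h, dite_true]
    exact mul_pos (hw i (hTS h)) (mul_self_pos.2 hi)

theorem definite_or_kernel (B : E →ₗ[ℝ] E →ₗ[ℝ] ℝ) (hB : ∀ x y, B x y = B y x) :
    (∃ j : (ℂ × ℂ) →ₗ[ℝ] E, ∀ v, v ≠ 0 → 0 < B (j v) (j v)) ∨
    (∃ j : (ℂ × ℂ) →ₗ[ℝ] E, ∀ v, v ≠ 0 → B (j v) (j v) < 0) ∨
    (∃ K : Submodule ℝ E, finrank ℝ E ≤ finrank ℝ K + 6 ∧ ∀ X ∈ K, B X = 0) := by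
  classical
  obtain ⟨w, ⟨e⟩⟩ := QuadraticForm.equivalent_signType_weighted_sum_squared
    (LinearMap.BilinMap.toQuadraticMap B)
  have hQ : ∀ x, B x x = ∑ i, ((w i : SignType) : ℝ) * (e x i * e x i) := by
    intro x
    have h := e.map_app x
    rw [LinearMap.BilinMap.toQuadraticMap_apply] at h
    rw [← h, QuadraticMap.weightedSumSquares_apply]
    simp
  set P : Finset (Fin (finrank ℝ E)) := Finset.univ.filter (fun i => w i = 1) with hP
  set N : Finset (Fin (finrank ℝ E)) := Finset.univ.filter (fun i => w i = -1) with hN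
  by_cases hPc : 4 ≤ P.card
  · left
    obtain ⟨j, hj⟩ := exists_definite_of_card (fun i => ((w i : SignType) : ℝ)) P hPc (by
      intro i hi
      rw [hP, Finset.mem_filter] at hi
      simp [hi.2])
    refine ⟨e.toLinearEquiv.symm.toLinearMap.comp j, fun v hv => ?_⟩
    have h := hj v hv
    rw [hQ]
    have : ∀ i, e ((e.toLinearEquiv.symm.toLinearMap.comp j) v) i = j v i := by
      intro i
      have : e (e.toLinearEquiv.symm (j v)) = j v := e.toLinearEquiv.apply_symm_apply (j v)
      exact congrFun this i
    simp only [this]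
    exact h
  by_cases hNc : 4 ≤ N.card
  · right; left
    obtain ⟨j, hj⟩ := exists_definite_of_card (fun i => -((w i : SignType) : ℝ)) N hNc (by
      intro i hi
      rw [hN, Finset.mem_filter] at hi
      simp [hi.2])
    refine ⟨e.toLinearEquiv.symm.toLinearMap.comp j, fun v hv => ?_⟩
    have h := hj v hv
    rw [hQ]
    have : ∀ i, e ((e.toLinearEquiv.symm.toLinearMap.comp j) v) i = j v i := by
      intro i
      have : e (e.toLinearEquiv.symm (j v)) = j v := e.toLinearEquiv.apply_symm_apply (j v)
      exact congrFun this i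
    simp only [this]
    have h2 : ∑ i, -((w i : SignType) : ℝ) * (j v i * j v i)
      = - ∑ i, ((w i : SignType) : ℝ) * (j v i * j v i) := by
      rw [← Finset.sum_neg_distrib]
      apply Finset.sum_congr rfl
      intro i _; ring
    rw [h2] at h
    linarith
  · right; right
    push Not at hPc hNc
    -- coordinates in P ∪ N
    let S := P ∪ N
    have hScard : S.card ≤ 6 := by
      have := Finset.card_union_le P N
      have h2 : S.card ≤ P.card + N.card := this
      omega
    let r : (Fin (finrank ℝ E) → ℝ) →ₗ[ℝ] (S → ℝ) := LinearMap.funLeft ℝ ℝ (fun i : S => (i : Fin (finrank ℝ E)))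
    let φ : E →ₗ[ℝ] (S → ℝ) := r.comp e.toLinearEquiv.toLinearMap
    refine ⟨LinearMap.ker φ, ?_, ?_⟩
    · have h1 := LinearMap.finrank_range_add_finrank_ker φ
      have h2 : finrank ℝ (LinearMap.range φ) ≤ finrank ℝ (S → ℝ) := Submodule.finrank_le _
      rw [Module.finrank_fintype_fun_eq_card, Fintype.card_coe] at h2
      omega
    · intro X hX
      have hX' : ∀ i ∈ S, e X i = 0 := by
        intro i hi
        have h1 : φ X = 0 := hX
        exact congrFun h1 ⟨i, hi⟩
      have hwX : ∀ i, ((w i : SignType) : ℝ) * e X i = 0 := by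
        intro i
        by_cases hi : i ∈ S
        · rw [hX' i hi, mul_zero]
        · have hwi : w i = 0 := by
            have h1 : w i ≠ 1 := by
              intro h
              apply hi
              exact Finset.mem_union_left _ (by rw [hP, Finset.mem_filter]; exact ⟨Finset.mem_univ _, h⟩)
            have h2 : w i ≠ -1 := by
              intro h
              apply hi
              exact Finset.mem_union_right _ (by rw [hN, Finset.mem_filter]; exact ⟨Finset.mem_univ _, h⟩)
            rcases h3 : w i with _ | _ | _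
            · rfl
            · exact absurd h3 h2
            · exact absurd h3 h1
          rw [hwi]; simp
      ext Y
      rw [LinearMap.zero_apply]
      have hpol : 2 * B X Y = B (X + Y) (X + Y) - B X X - B Y Y := by
        have h1 : B (X + Y) (X + Y) = B X X + B X Y + (B Y X + B Y Y) := by
          simp only [map_add, LinearMap.add_apply]; ring
        rw [h1, hB Y X]; ring
      have hsum : B (X + Y) (X + Y) - B X X - B Y Y = 0 := by
        rw [hQ, hQ X, hQ Y, ← Finset.sum_sub_distrib, ← Finset.sum_sub_distrib]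
        apply Finset.sum_eq_zero
        intro i _
        have h1 : e (X + Y) i = e X i + e Y i := by
          have : e (X + Y) = e X + e Y := e.toLinearEquiv.map_add X Y
          rw [this]; rfl
        rw [h1]
        have h2 := hwX i
        linear_combination (2 * e Y i) * h2
      rw [hsum] at hpol
      linarith

end Pool.Agent.Lib.MP_21eb72_gt
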