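import Mathlib
import Pool.Agent.Lib.MP_21eb72_gt.Topo
import Pool.Agent.Lib.MP_21eb72_gt.Hexagon
import Pool.Agent.Lib.MP_21eb72_gt.Radial
import Pool.Agent.Lib.MP_21eb72_gt.Kernel
import Pool.Agent.Lib.MP_21eb72_gt.Signature

/-!
# Five points of a codimension-two graph on a 2-plane
-/

set_option autoImplicit false

namespace Pool.Agent.Lib.MP_21eb72_gt

open Metric Set Filter Topology Module
open scoped ContDiff

/-- The nondegenerate case: if the Hessian of `h` at a point is positive definite on a copy of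
`ℂ × ℂ`, then there are five points of a real plane through that point at which both `h` and `k`
agree with affine functions of the plane. -/
theorem caseA {E : Type*} [NormedAddCommGroup E] [NormedSpace ℝ E] (U : Set E) (hU : IsOpen U)
    (h k : E → ℝ) (h1 : E → E →L[ℝ] ℝ) (h2 : E → E →L[ℝ] E →L[ℝ] ℝ)
    (H1 : ∀ x ∈ U, HasFDerivAt h (h1 x) x) (H2 : ∀ x ∈ U, HasFDerivAt h1 (h2 x) x)
    (H3 : ∀ x ∈ U, ∀ ε > 0, ∃ δ > 0, ∀ y ∈ ball x δ, ‖h2 y - h2 x‖ < ε) (hk : ContinuousOn k U) (x0 : E) (hx0 : x0 ∈ U)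
    (j0 : (ℂ × ℂ) →ₗ[ℝ] E) (hj0 : ∀ v, v ≠ 0 → 0 < h2 x0 (j0 v) (j0 v)) :
    ∃ (d1 d2 : E), LinearIndependent ℝ ![d1, d2] ∧
      ∃ (a0 a1 a2 b0 b1 b2 : ℝ) (c : Fin 5 → ℝ × ℝ), Function.Injective c ∧
        ∀ i, x0 + (c i).1 • d1 + (c i).2 • d2 ∈ U ∧
          h (x0 + (c i).1 • d1 + (c i).2 • d2) = a0 + a1 * (c i).1 + a2 * (c i).2 ∧
          k (x0 + (c i).1 • d1 + (c i).2 • d2) = b0 + b1 * (c i).1 + b2 * (c i).2 := by
  let j : (ℂ × ℂ) →L[ℝ] E := LinearMap.toContinuousLinearMap j0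
  have hj : ∀ v, v ≠ 0 → 0 < h2 x0 (j v) (j v) := hj0
  have hjinj : ∀ v, j v = 0 → v = 0 := by
    intro v hv
    by_contra hne
    have := hj v hne
    rw [hv] at this
    simp at this
  -- positivity near x0
  obtain ⟨c0, hc0, hc0'⟩ : ∃ c0 : ℝ, 0 < c0 ∧ ∀ v : ℂ × ℂ, c0 * ‖v‖ ^ 2 ≤ h2 x0 (j v) (j v) := by
    have hne : (sphere (0:ℂ × ℂ) 1).Nonempty := NormedSpace.sphere_nonempty.2 zero_le_one
    have hco : Continuous (fun v : ℂ × ℂ => h2 x0 (j v) (j v)) := by fun_prop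
    obtain ⟨v0, hv0, hmin⟩ := (isCompact_sphere (0:ℂ × ℂ) 1).exists_isMinOn hne hco.continuousOn
    have hv0' : v0 ≠ 0 := by
      rintro rfl
      rw [mem_sphere_zero_iff_norm, norm_zero] at hv0
      exact zero_ne_one hv0
    refine ⟨h2 x0 (j v0) (j v0), hj v0 hv0', fun v => ?_⟩
    by_cases hv : v = 0
    · rw [hv]; simp
    · have hnv : 0 < ‖v‖ := norm_pos_iff.2 hv
      have hmem : (‖v‖⁻¹ • v) ∈ sphere (0:ℂ × ℂ) 1 := by
        rw [mem_sphere_zero_iff_norm, norm_smul, norm_inv, norm_norm, inv_mul_cancel₀ hnv.ne']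
      have h3 : h2 x0 (j v0) (j v0) ≤ h2 x0 (j (‖v‖⁻¹ • v)) (j (‖v‖⁻¹ • v)) := hmin hmem
      have h4 : h2 x0 (j (‖v‖⁻¹ • v)) (j (‖v‖⁻¹ • v)) = ‖v‖⁻¹ * (‖v‖⁻¹ * h2 x0 (j v) (j v)) := by
        simp [map_smul]
      rw [h4] at h3
      calc h2 x0 (j v0) (j v0) * ‖v‖ ^ 2
          ≤ (‖v‖⁻¹ * (‖v‖⁻¹ * h2 x0 (j v) (j v))) * ‖v‖ ^ 2 := by gcongr
        _ = h2 x0 (j v) (j v) := by field_simp
  -- choose r
  obtain ⟨r, hr, hrU, hrpos⟩ : ∃ r > 0, (∀ v ∈ ball (0:ℂ × ℂ) r, x0 + j v ∈ U) ∧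
      ∀ v ∈ ball (0:ℂ × ℂ) r, ∀ u : ℂ × ℂ, u ≠ 0 → 0 < h2 (x0 + j v) (j u) (j u) := by
    have hcj : ContinuousAt (fun v : ℂ × ℂ => x0 + j v) 0 := by fun_prop
    have h00 : x0 + j 0 = x0 := by simp
    have e1 : ∀ᶠ v in 𝓝 (0:ℂ × ℂ), x0 + j v ∈ U := by
      apply hcj.preimage_mem_nhds
      show U ∈ 𝓝 (x0 + j 0)
      rw [h00]; exact hU.mem_nhds hx0
    have e2 : ∀ᶠ v in 𝓝 (0:ℂ × ℂ), ‖h2 (x0 + j v) - h2 x0‖ * (‖j‖ ^ 2) < c0 := by
      obtain ⟨δ, hδ, hδ'⟩ := H3 x0 hx0 (c0 / (‖j‖ ^ 2 + 1)) (by positivity)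
      have e3 : ∀ᶠ v in 𝓝 (0:ℂ × ℂ), x0 + j v ∈ ball x0 δ := by
        apply hcj.preimage_mem_nhds
        show ball x0 δ ∈ 𝓝 (x0 + j 0)
        rw [h00]; exact ball_mem_nhds x0 hδ
      filter_upwards [e3] with v hv
      have h3 := hδ' _ hv
      rw [lt_div_iff₀ (by positivity)] at h3
      have h4 : 0 ≤ ‖h2 (x0 + j v) - h2 x0‖ := ContinuousLinearMap.opNorm_nonneg _
      calc ‖h2 (x0 + j v) - h2 x0‖ * (‖j‖ ^ 2) ≤ ‖h2 (x0 + j v) - h2 x0‖ * (‖j‖ ^ 2 + 1) := by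
            gcongr; linarith
        _ < c0 := h3
    obtain ⟨r, hr, hr'⟩ := Metric.eventually_nhds_iff_ball.1 (e1.and e2)
    refine ⟨r, hr, fun v hv => (hr' v hv).1, fun v hv u hu => ?_⟩
    have h3 := (hr' v hv).2
    have hnu : 0 < ‖u‖ := norm_pos_iff.2 hu
    have h4 := hc0' u
    have h5 : |(h2 (x0 + j v) - h2 x0) (j u) (j u)| ≤
        ‖h2 (x0 + j v) - h2 x0‖ * ‖j‖ ^ 2 * ‖u‖ ^ 2 := by
      rw [← Real.norm_eq_abs]
      refine ((h2 (x0 + j v) - h2 x0).le_opNorm₂ (j u) (j u)).trans ?_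
      have h6 : ‖j u‖ ≤ ‖j‖ * ‖u‖ := j.le_opNorm u
      calc ‖h2 (x0 + j v) - h2 x0‖ * ‖j u‖ * ‖j u‖
          ≤ ‖h2 (x0 + j v) - h2 x0‖ * (‖j‖ * ‖u‖) * (‖j‖ * ‖u‖) := by gcongr
        _ = _ := by ring
    have h6 : (h2 (x0 + j v) - h2 x0) (j u) (j u) =
        h2 (x0 + j v) (j u) (j u) - h2 x0 (j u) (j u) := by
      simp [sub_apply]
    rw [h6] at h5
    have h7 := (abs_le.1 h5).1
    have h8 : ‖h2 (x0 + j v) - h2 x0‖ * ‖j‖ ^ 2 * ‖u‖ ^ 2 < c0 * ‖u‖ ^ 2 := by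
      apply mul_lt_mul_of_pos_right h3 (by positivity)
    linarith
  -- the function g
  let g : ℂ × ℂ → ℝ := fun v => h (x0 + j v) - h x0 - h1 x0 (j v)
  let g' : ℂ × ℂ → (ℂ × ℂ) →L[ℝ] ℝ := fun v => (h1 (x0 + j v)).comp j - (h1 x0).comp j
  let g'' : ℂ × ℂ → (ℂ × ℂ) →L[ℝ] (ℂ × ℂ) →L[ℝ] ℝ := fun v =>
    ((ContinuousLinearMap.compL ℝ (ℂ × ℂ) E ℝ).flip j).comp ((h2 (x0 + j v)).comp j)
  have hjd : ∀ v : ℂ × ℂ, HasFDerivAt (fun v => x0 + j v) j v := fun v => j.hasFDerivAt.const_add x0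
  have G1 : ∀ v ∈ ball (0:ℂ × ℂ) r, HasFDerivAt g (g' v) v := by
    intro v hv
    have e1 : HasFDerivAt (fun v => h (x0 + j v)) ((h1 (x0 + j v)).comp j) v :=
      (H1 _ (hrU v hv)).comp v (hjd v)
    have e2 : HasFDerivAt (fun v => h1 x0 (j v)) ((h1 x0).comp j) v :=
      (h1 x0).hasFDerivAt.comp v j.hasFDerivAt
    exact (e1.sub_const (h x0)).sub e2
  have G2 : ∀ v ∈ ball (0:ℂ × ℂ) r, HasFDerivAt g' (g'' v) v := by
    intro v hv
    have e1 : HasFDerivAt (fun v => h1 (x0 + j v)) ((h2 (x0 + j v)).comp j) v :=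
      (H2 _ (hrU v hv)).comp v (hjd v)
    have e2 := (((ContinuousLinearMap.compL ℝ (ℂ × ℂ) E ℝ).flip j).hasFDerivAt
      (x := h1 (x0 + j v))).comp v e1
    exact e2.sub_const _
  have G3 : ∀ v ∈ ball (0:ℂ × ℂ) r, ∀ u : ℂ × ℂ, u ≠ 0 → 0 < g'' v u u := by
    intro v hv u hu
    exact hrpos v hv u hu
  have G4 : g' 0 = 0 := by
    show (h1 (x0 + j 0)).comp j - (h1 x0).comp j = 0
    rw [map_zero, add_zero, sub_self]
  have G5 : g 0 = 0 := by
    show h (x0 + j 0) - h x0 - h1 x0 (j 0) = 0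
    simp
  obtain ⟨κ, t, ht, htpos, htball, htκ⟩ := exists_radial g g' g'' r hr G1 G2 G3 G4 G5
  have hsm : ∀ (a : ℝ) (v : ℂ × ℂ), ((a : ℂ)) • v = a • v := fun a v => Complex.coe_smul a v
  obtain ⟨w, hw, a, b1, b2, c, hcinj, hc⟩ := exists_five_points t ht htpos
    (fun v => k (x0 + j v)) (by
      have e1 : ContinuousOn (fun v : ℂ × ℂ => x0 + j (((t v : ℝ) : ℂ) • v)) {v | v ≠ 0} := by
        apply ContinuousOn.add continuousOn_const
        apply j.continuous.comp_continuousOn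
        exact (Complex.continuous_ofReal.comp_continuousOn ht).smul continuousOn_id
      exact hk.comp e1 (by
        intro v hv
        show x0 + j (((t v : ℝ) : ℂ) • v) ∈ U
        rw [hsm]
        exact hrU _ (htball v hv)))
  have hdec : ∀ i, c i • w = (c i).re • w + (c i).im • (Complex.I • w) := by
    intro i
    have e1 : ((c i).re : ℂ) • w + ((c i).im : ℂ) • (Complex.I • w) = c i • w := by
      rw [smul_smul, ← add_smul]
      congr 1
      exact Complex.re_add_im (c i)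
    rw [hsm, hsm] at e1
    exact e1.symm
  refine ⟨j w, j (Complex.I • w), ?_, h x0 + κ, h1 x0 (j w), h1 x0 (j (Complex.I • w)), a, b1, b2,
    fun i => ((c i).re, (c i).im), ?_, ?_⟩
  · rw [LinearIndependent.pair_iff]
    intro s s' hss
    have e1 : j (s • w + s' • (Complex.I • w)) = 0 := by
      rw [map_add, map_smul, map_smul]; exact hss
    have e2 := hjinj _ e1
    rw [← hsm, ← hsm, smul_smul, ← add_smul] at e2
    rcases smul_eq_zero.1 e2 with h3 | h3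
    · have hre := congrArg Complex.re h3
      have him := congrArg Complex.im h3
      simp at hre him
      exact ⟨hre, him⟩
    · exact absurd h3 hw
  · intro i i' hii
    apply hcinj
    have e1 : (c i).re = (c i').re := congrArg Prod.fst hii
    have e2 : (c i).im = (c i').im := congrArg Prod.snd hii
    exact Complex.ext e1 e2
  · intro i
    obtain ⟨⟨u, hu, hcu⟩, hki⟩ := hc i
    have hjdec : j (c i • w) = (c i).re • j w + (c i).im • j (Complex.I • w) := by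
      rw [hdec i, map_add]
      congr 1
      · exact j.map_smul _ _
      · exact j.map_smul _ _
    have hpt : x0 + (c i).re • j w + (c i).im • j (Complex.I • w) = x0 + j (c i • w) := by
      rw [hjdec, add_assoc]
    show x0 + (c i).re • j w + (c i).im • j (Complex.I • w) ∈ U ∧
      h (x0 + (c i).re • j w + (c i).im • j (Complex.I • w)) = _ ∧
      k (x0 + (c i).re • j w + (c i).im • j (Complex.I • w)) = _
    rw [hpt]
    refine ⟨?_, ?_, hki⟩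
    · rw [hcu, hsm]
      exact hrU _ (htball u hu)
    · have e1 : g (c i • w) = κ := by
        rw [hcu, hsm]; exact htκ u hu
      have e2 : h (x0 + j (c i • w)) - h x0 - h1 x0 (j (c i • w)) = κ := e1
      have e3 : h1 x0 (j (c i • w)) = h1 x0 (j w) * (c i).re + h1 x0 (j (Complex.I • w)) * (c i).im := by
        rw [hjdec, map_add, map_smul, map_smul, smul_eq_mul, smul_eq_mul]
        ring
      show h (x0 + j (c i • w)) = h x0 + κ + h1 x0 (j w) * (c i).re + h1 x0 (j (Complex.I • w)) * (c i).im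
      linarith

theorem loc_bdd {E A : Type*} [NormedAddCommGroup E] [NormedAddCommGroup A] (ψ : E → A) (x : E)
    (h : ContinuousAt ψ x) : ∃ M3 δ3 : ℝ, 0 < δ3 ∧ ∀ y ∈ ball x δ3, ‖ψ y‖ ≤ M3 := by
  have hc' : ContinuousAt (fun y => ‖ψ y‖) x := h.norm
  have hev : ∀ᶠ y in 𝓝 x, ‖ψ y‖ < ‖ψ x‖ + 1 :=
    hc'.eventually_lt continuousAt_const (by linarith)
  obtain ⟨δ3, hδ3, hδ3'⟩ := Metric.eventually_nhds_iff_ball.1 hev
  exact ⟨_, δ3, hδ3, fun y hy => (hδ3' y hy).le⟩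

theorem eps_delta {E A : Type*} [NormedAddCommGroup E] [NormedAddCommGroup A] (ψ : E → A) (x : E)
    (h : ContinuousAt ψ x) : ∀ ε > 0, ∃ δ > 0, ∀ y ∈ ball x δ, ‖ψ y - ψ x‖ < ε := by
  intro ε hε
  obtain ⟨δ, hδ, hδ'⟩ := Metric.continuousAt_iff.1 h ε hε
  refine ⟨δ, hδ, fun y hy => ?_⟩
  rw [← dist_eq_norm]
  exact hδ' hy

/-- Derivatives of a smooth map on an open set. -/
theorem derivs {E F : Type*} [NormedAddCommGroup E] [NormedSpace ℝ E] [NormedAddCommGroup F]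
    [NormedSpace ℝ F] (U : Set E) (hU : IsOpen U) (φ : E → F) (hφ : ContDiffOn ℝ ∞ φ U) :
    ∃ (φ1 : E → E →L[ℝ] F) (φ2 : E → E →L[ℝ] E →L[ℝ] F),
      ContDiffOn ℝ ∞ φ1 U ∧
      (∀ x ∈ U, HasFDerivAt φ (φ1 x) x) ∧ (∀ x ∈ U, HasFDerivAt φ1 (φ2 x) x) ∧
      (∀ x ∈ U, ∀ ε > 0, ∃ δ > 0, ∀ y ∈ ball x δ, ‖φ2 y - φ2 x‖ < ε) ∧
      (∀ x ∈ U, ∃ M3 δ3 : ℝ, 0 < δ3 ∧ ∀ y ∈ ball x δ3, ‖φ2 y‖ ≤ M3) ∧
      (∀ x ∈ U, ∀ v w, φ2 x v w = φ2 x w v) := by
  have c1 : ContDiffOn ℝ ∞ (fderiv ℝ φ) U := hφ.fderiv_of_isOpen hU (by simp)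
  have c2 : ContDiffOn ℝ ∞ (fderiv ℝ (fderiv ℝ φ)) U := c1.fderiv_of_isOpen hU (by simp)
  refine ⟨fderiv ℝ φ, fderiv ℝ (fderiv ℝ φ), c1, ?_, ?_, ?_, ?_, ?_⟩
  · intro x hx
    exact ((hφ.contDiffAt (hU.mem_nhds hx)).differentiableAt (by simp)).hasFDerivAt
  · intro x hx
    exact ((c1.contDiffAt (hU.mem_nhds hx)).differentiableAt (by simp)).hasFDerivAt
  · intro x hx
    exact eps_delta _ x (c2.contDiffAt (hU.mem_nhds hx)).continuousAt
  · intro x hx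
    exact loc_bdd _ x (c2.contDiffAt (hU.mem_nhds hx)).continuousAt
  · intro x hx v w
    have := (hφ.contDiffAt (hU.mem_nhds hx)).isSymmSndFDerivAt (by
      simp only [minSmoothness_of_isRCLikeNormedField]
      show ((2 : ℕ∞) : WithTop ℕ∞) ≤ ((⊤ : ℕ∞) : WithTop ℕ∞)
      exact WithTop.coe_le_coe.2 le_top)
    exact this v w

/-- The open cube. -/
theorem isOpen_cube (m : ℕ) : IsOpen {x : Fin m → ℝ | ∀ i, x i ∈ Set.Ioo (-1 : ℝ) 1} := by
  have : {x : Fin m → ℝ | ∀ i, x i ∈ Set.Ioo (-1 : ℝ) 1} =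
      Set.pi Set.univ (fun _ => Set.Ioo (-1 : ℝ) 1) := by
    ext x; simp
  rw [this]
  exact isOpen_set_pi Set.finite_univ (fun _ _ => isOpen_Ioo)

/-- Assembly: five points given in affine coordinates produce the required 2-plane. -/
theorem assemble (m : ℕ) (f : (Fin m → ℝ) → (Fin 2 → ℝ)) (U : Set (Fin m → ℝ))
    (p d1 d2 : Fin m → ℝ) (hd : LinearIndependent ℝ ![d1, d2])
    (A0 A1 A2 : Fin 2 → ℝ) (c : Fin 5 → ℝ × ℝ) (hc : Function.Injective c)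
    (h : ∀ i, p + (c i).1 • d1 + (c i).2 • d2 ∈ U ∧
      f (p + (c i).1 • d1 + (c i).2 • d2) = A0 + (c i).1 • A1 + (c i).2 • A2) :
    ∃ P : AffineSubspace ℝ ((Fin m → ℝ) × (Fin 2 → ℝ)),
      Module.finrank ℝ P.direction = 2 ∧
      ∃ S : Finset (Fin m → ℝ), S.card = 5 ∧ ∀ x ∈ S, x ∈ U ∧ (x, f x) ∈ P := by
  classical
  let D : Fin 2 → (Fin m → ℝ) × (Fin 2 → ℝ) := ![(d1, A1), (d2, A2)]
  have hD : LinearIndependent ℝ D := by
    rw [LinearIndependent.pair_iff] at hd ⊢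
    intro s t hst
    exact hd s t (congrArg Prod.fst hst)
  refine ⟨AffineSubspace.mk' (p, A0) (Submodule.span ℝ (Set.range D)), ?_, ?_⟩
  · rw [AffineSubspace.direction_mk', finrank_span_eq_card hD]
    simp
  · let pt : Fin 5 → (Fin m → ℝ) := fun i => p + (c i).1 • d1 + (c i).2 • d2
    have hinj : Function.Injective pt := by
      intro i i' hii
      have h1 : p + (c i).1 • d1 + (c i).2 • d2 = p + (c i').1 • d1 + (c i').2 • d2 := hii
      have h2 : ((c i).1 - (c i').1) • d1 + ((c i).2 - (c i').2) • d2 = 0 := by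
        rw [sub_smul, sub_smul]
        have h3 : (c i).1 • d1 + (c i).2 • d2 = (c i').1 • d1 + (c i').2 • d2 := by
          rw [add_assoc, add_assoc] at h1
          exact add_left_cancel h1
        calc (c i).1 • d1 - (c i').1 • d1 + ((c i).2 • d2 - (c i').2 • d2)
            = ((c i).1 • d1 + (c i).2 • d2) - ((c i').1 • d1 + (c i').2 • d2) := by abel
          _ = 0 := by rw [h3, sub_self]
      obtain ⟨h4, h5⟩ := LinearIndependent.pair_iff.1 hd _ _ h2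
      apply hc
      exact Prod.ext (sub_eq_zero.1 h4) (sub_eq_zero.1 h5)
    refine ⟨Finset.univ.image pt, ?_, ?_⟩
    · rw [Finset.card_image_of_injective _ hinj]; simp
    · intro x hx
      rw [Finset.mem_image] at hx
      obtain ⟨i, -, rfl⟩ := hx
      refine ⟨(h i).1, ?_⟩
      rw [AffineSubspace.mem_mk']
      have hfx : f (pt i) = A0 + (c i).1 • A1 + (c i).2 • A2 := (h i).2
      have hdiff : ((pt i, f (pt i)) : (Fin m → ℝ) × (Fin 2 → ℝ)) -ᵥ (p, A0)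
          = (c i).1 • D 0 + (c i).2 • D 1 := by
        rw [hfx]
        show ((p + (c i).1 • d1 + (c i).2 • d2, A0 + (c i).1 • A1 + (c i).2 • A2) :
          (Fin m → ℝ) × (Fin 2 → ℝ)) - (p, A0) = (c i).1 • (d1, A1) + (c i).2 • (d2, A2)
        rw [Prod.smul_mk, Prod.smul_mk, Prod.mk_add_mk, Prod.mk_sub_mk]
        congr 1 <;> abel
      rw [hdiff]
      exact Submodule.add_mem _
        (Submodule.smul_mem _ _ (Submodule.subset_span ⟨0, rfl⟩))
        (Submodule.smul_mem _ _ (Submodule.subset_span ⟨1, rfl⟩))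

/-- Case A for one of the two components (`i`), with a sign. -/
theorem caseA' (m : ℕ) (f : (Fin m → ℝ) → (Fin 2 → ℝ)) (U : Set (Fin m → ℝ)) (hU : IsOpen U)
    (f1 : (Fin m → ℝ) → (Fin m → ℝ) →L[ℝ] (Fin 2 → ℝ))
    (f2 : (Fin m → ℝ) → (Fin m → ℝ) →L[ℝ] (Fin m → ℝ) →L[ℝ] (Fin 2 → ℝ))
    (H1 : ∀ x ∈ U, HasFDerivAt f (f1 x) x) (H2 : ∀ x ∈ U, HasFDerivAt f1 (f2 x) x)
    (H3 : ∀ x ∈ U, ∀ ε > 0, ∃ δ > 0, ∀ y ∈ ball x δ, ‖f2 y - f2 x‖ < ε)
    (x0 : Fin m → ℝ) (hx0 : x0 ∈ U) (i : Fin 2) (σ : ℝ) (hσ : σ = 1 ∨ σ = -1)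
    (j : (ℂ × ℂ) →ₗ[ℝ] (Fin m → ℝ)) (hj : ∀ v, v ≠ 0 → 0 < σ * f2 x0 (j v) (j v) i) :
    ∃ P : AffineSubspace ℝ ((Fin m → ℝ) × (Fin 2 → ℝ)),
      Module.finrank ℝ P.direction = 2 ∧
      ∃ S : Finset (Fin m → ℝ), S.card = 5 ∧ ∀ x ∈ S, x ∈ U ∧ (x, f x) ∈ P := by
  let L : (Fin 2 → ℝ) →L[ℝ] ℝ := σ • ContinuousLinearMap.proj (R := ℝ) (φ := fun _ : Fin 2 => ℝ) i
  have hLapp : ∀ y, L y = σ * y i := fun y => rfl
  have hLn : ‖L‖ ≤ 1 := by
    apply ContinuousLinearMap.opNorm_le_bound _ zero_le_one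
    intro y
    rw [hLapp, norm_mul, one_mul]
    have h1 : ‖σ‖ = 1 := by rcases hσ with h | h <;> rw [h] <;> simp
    rw [h1, one_mul]
    exact norm_le_pi_norm y i
  let h : (Fin m → ℝ) → ℝ := fun x => L (f x)
  let h1 : (Fin m → ℝ) → (Fin m → ℝ) →L[ℝ] ℝ := fun x => L.comp (f1 x)
  let h2 : (Fin m → ℝ) → (Fin m → ℝ) →L[ℝ] (Fin m → ℝ) →L[ℝ] ℝ := fun x =>
    (ContinuousLinearMap.compL ℝ (Fin m → ℝ) (Fin 2 → ℝ) ℝ L).comp (f2 x)
  let i' : Fin 2 := 1 - i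
  let k : (Fin m → ℝ) → ℝ := fun x => f x i'
  have hk : ContinuousOn k U := by
    intro x hx
    have := (H1 x hx).continuousAt
    exact ((continuous_apply i').continuousAt.comp this).continuousWithinAt
  obtain ⟨d1, d2, hd, a0, a1, a2, b0, b1, b2, c, hc, hcc⟩ := caseA U hU h k h1 h2
    (fun x hx => L.hasFDerivAt.comp x (H1 x hx))
    (fun x hx => (ContinuousLinearMap.compL ℝ (Fin m → ℝ) (Fin 2 → ℝ) ℝ L).hasFDerivAt.comp x
      (H2 x hx))
    (by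
      intro x hx ε hε
      obtain ⟨δ, hδ, hδ'⟩ := H3 x hx ε hε
      refine ⟨δ, hδ, fun y hy => ?_⟩
      refine lt_of_le_of_lt ?_ (hδ' y hy)
      apply ContinuousLinearMap.opNorm_le_bound _ (ContinuousLinearMap.opNorm_nonneg _)
      intro u
      apply ContinuousLinearMap.opNorm_le_bound _
        (mul_nonneg (ContinuousLinearMap.opNorm_nonneg _) (norm_nonneg _))
      intro v
      have e1 : (h2 y - h2 x) u v = L ((f2 y - f2 x) u v) := by
        show L (f2 y u v) - L (f2 x u v) = L (f2 y u v - f2 x u v)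
        rw [map_sub]
      rw [e1]
      refine (L.le_opNorm _).trans ?_
      have e2 : ‖(f2 y - f2 x) u v‖ ≤ ‖f2 y - f2 x‖ * ‖u‖ * ‖v‖ := (f2 y - f2 x).le_opNorm₂ u v
      calc ‖L‖ * ‖(f2 y - f2 x) u v‖ ≤ 1 * ‖(f2 y - f2 x) u v‖ := by gcongr
        _ ≤ _ := by rw [one_mul]; exact e2)
    hk x0 hx0 j (fun v hv => hj v hv)
  have hσσ : σ * σ = 1 := by rcases hσ with h | h <;> rw [h] <;> norm_num
  -- vector coefficients
  let A : ℝ → ℝ → Fin 2 → ℝ := fun a b l => if l = i then σ * a else b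
  refine assemble m f U x0 d1 d2 hd (A a0 b0) (A a1 b1) (A a2 b2) c hc (fun l => ?_)
  obtain ⟨e1, e2, e3⟩ := hcc l
  refine ⟨e1, ?_⟩
  set q := x0 + (c l).1 • d1 + (c l).2 • d2 with hq
  have e2' : σ * f q i = a0 + a1 * (c l).1 + a2 * (c l).2 := e2
  have e3' : f q i' = b0 + b1 * (c l).1 + b2 * (c l).2 := e3
  funext s
  show f q s = A a0 b0 s + (c l).1 * A a1 b1 s + (c l).2 * A a2 b2 s
  by_cases hs : s = i
  · have hA : ∀ a b, A a b s = σ * a := fun a b => if_pos hs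
    rw [hA, hA, hA, hs]
    have : f q i = σ * (σ * f q i) := by rw [← mul_assoc, hσσ, one_mul]
    rw [this, e2']; ring
  · have hA : ∀ a b, A a b s = b := fun a b => if_neg hs
    rw [hA, hA, hA]
    have hsi : s = i' := by
      show s = 1 - i
      revert hs
      fin_cases s <;> fin_cases i <;> simp
    rw [hsi, e3']; ring

/-- Main theorem, in dimension at least 13. -/
theorem five_points (m : ℕ) (hm : 13 ≤ m) (f : (Fin m → ℝ) → (Fin 2 → ℝ))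
    (hf : ContDiffOn ℝ ∞ f {x : Fin m → ℝ | ∀ i, x i ∈ Set.Ioo (-1 : ℝ) 1}) :
    ∃ P : AffineSubspace ℝ ((Fin m → ℝ) × (Fin 2 → ℝ)),
      Module.finrank ℝ P.direction = 2 ∧
      ∃ S : Finset (Fin m → ℝ), S.card = 5 ∧
        ∀ x ∈ S, (∀ i, x i ∈ Set.Ioo (-1 : ℝ) 1) ∧ (x, f x) ∈ P := by
  classical
  set U : Set (Fin m → ℝ) := {x : Fin m → ℝ | ∀ i, x i ∈ Set.Ioo (-1 : ℝ) 1} with hUdef
  have hU : IsOpen U := isOpen_cube m
  have hne : U.Nonempty := ⟨0, fun i => by simp⟩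
  obtain ⟨f1, f2, cf1, H1, H2, H3, H4, s2⟩ := derivs U hU f hf
  obtain ⟨g1, g2, -, K1, K2, -, K4, t2⟩ := derivs U hU f1 cf1
  -- g1 agrees with f2 on U
  have hg1 : ∀ x ∈ U, g1 x = f2 x := fun x hx => (K1 x hx).unique (H2 x hx)
  by_cases hA : ∃ x0 ∈ U, ∃ (i : Fin 2) (σ : ℝ), (σ = 1 ∨ σ = -1) ∧
      ∃ j : (ℂ × ℂ) →ₗ[ℝ] (Fin m → ℝ), ∀ v, v ≠ 0 → 0 < σ * f2 x0 (j v) (j v) i
  · obtain ⟨x0, hx0, i, σ, hσ, j, hj⟩ := hA
    exact caseA' m f U hU f1 f2 H1 H2 H3 x0 hx0 i σ hσ j hj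
  · push Not at hA
    -- every Hessian has a large kernel
    have hker : ∀ x ∈ U, ∃ X : Fin m → ℝ, X ≠ 0 ∧ g1 x X = 0 := by
      intro x hx
      have hK : ∀ i : Fin 2, ∃ K : Submodule ℝ (Fin m → ℝ), m ≤ finrank ℝ K + 6 ∧
          ∀ X ∈ K, ∀ Y, f2 x X Y i = 0 := by
        intro i
        let B : (Fin m → ℝ) →ₗ[ℝ] (Fin m → ℝ) →ₗ[ℝ] ℝ :=
          LinearMap.mk₂ ℝ (fun X Y => f2 x X Y i)
            (by intro a b c; simp) (by intro a b c; simp) (by intro a b c; simp)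
            (by intro a b c; simp)
        have hBapp : ∀ X Y, B X Y = f2 x X Y i := fun X Y => rfl
        rcases definite_or_kernel B (fun X Y => by rw [hBapp, hBapp, s2 x hx]) with h | h | h
        · obtain ⟨j, hj⟩ := h
          obtain ⟨v, hv, hv'⟩ := hA x hx i 1 (Or.inl rfl) j
          have := hj v hv
          rw [hBapp] at this
          linarith
        · obtain ⟨j, hj⟩ := h
          obtain ⟨v, hv, hv'⟩ := hA x hx i (-1) (Or.inr rfl) j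
          have := hj v hv
          rw [hBapp] at this
          linarith
        · obtain ⟨K, hK, hK'⟩ := h
          refine ⟨K, by simpa using hK, fun X hX Y => ?_⟩
          rw [← hBapp, hK' X hX, LinearMap.zero_apply]
      obtain ⟨K0, hK0, hK0'⟩ := hK 0
      obtain ⟨K1', hK1, hK1'⟩ := hK 1
      have hsum := Submodule.finrank_sup_add_finrank_inf_eq K0 K1'
      have hle : finrank ℝ ↥(K0 ⊔ K1') ≤ m := by
        have := Submodule.finrank_le (K0 ⊔ K1')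
        simpa using this
      have hpos : 0 < finrank ℝ ↥(K0 ⊓ K1') := by omega
      have : Nontrivial ↥(K0 ⊓ K1') := Module.finrank_pos_iff.1 hpos
      obtain ⟨X, hX⟩ := exists_ne (0 : ↥(K0 ⊓ K1'))
      refine ⟨X, fun h => hX (Subtype.ext h), ?_⟩
      rw [hg1 x hx]
      ext Y i
      have hX0 : (X : Fin m → ℝ) ∈ K0 := X.2.1
      have hX1 : (X : Fin m → ℝ) ∈ K1' := X.2.2
      fin_cases i
      · simpa using hK0' X hX0 Y
      · simpa using hK1' X hX1 Y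
    obtain ⟨x0, hx0, X, ε, hX, hε, hseg⟩ := exists_affine_segment
      (ContinuousLinearMap.id ℝ ((Fin m → ℝ) →L[ℝ] (Fin 2 → ℝ))) (fun φ => rfl) f f1 g1 g2 U hU hne
      H1 K1 K2 K4 (by
        intro x hx v w
        show g1 x v w = g1 x w v
        rw [hg1 x hx]; exact s2 x hx v w) t2 hker
    -- a vector independent of X
    obtain ⟨d2, hd2⟩ : ∃ d2 : Fin m → ℝ, LinearIndependent ℝ ![X, d2] := by
      have hspan : (Submodule.span ℝ {X}) ≠ ⊤ := by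
        intro h
        have h1 : finrank ℝ (Submodule.span ℝ {X}) ≤ 1 := by
          have := finrank_span_le_card (R := ℝ) ({X} : Set (Fin m → ℝ))
          simpa using this
        rw [h, finrank_top] at h1
        simp at h1
        omega
      obtain ⟨d2, hd2⟩ : ∃ d2, d2 ∉ Submodule.span ℝ {X} := by
        by_contra hcon
        push Not at hcon
        exact hspan (Submodule.eq_top_iff'.2 hcon)
      refine ⟨d2, ?_⟩
      rw [LinearIndependent.pair_iff' hX]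
      intro a ha
      exact hd2 (Submodule.mem_span_singleton.2 ⟨a, ha⟩)
    refine assemble m f U x0 X d2 hd2 (f x0) (f1 x0 X) 0
      (fun i => (((i : ℕ) : ℝ) * (ε / 5), 0)) ?_ ?_
    · intro i i' hii
      have h1 : ((i : ℕ) : ℝ) * (ε / 5) = ((i' : ℕ) : ℝ) * (ε / 5) := congrArg Prod.fst hii
      have h2 : ((i : ℕ) : ℝ) = ((i' : ℕ) : ℝ) := mul_right_cancel₀ (by positivity) h1
      exact Fin.ext (by exact_mod_cast h2)
    · intro i
      have ht : ((i : ℕ) : ℝ) * (ε / 5) ∈ Icc (0:ℝ) ε := by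
        refine ⟨by positivity, ?_⟩
        have h1 : ((i : ℕ) : ℝ) ≤ 4 := by exact_mod_cast (by omega : (i : ℕ) ≤ 4)
        calc ((i : ℕ) : ℝ) * (ε / 5) ≤ 4 * (ε / 5) := by gcongr
          _ ≤ ε := by linarith
      obtain ⟨h1, h2⟩ := hseg _ ht
      refine ⟨by simpa using h1, ?_⟩
      simpa using h2

end Pool.Agent.Lib.MP_21eb72_gt
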